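import Mathlib
import Pool.Agent.Lib.H41S.A6

/-! # H41V: the valuations of the L-values of the characters of order p^(n+s+1), compared with their powers of order p^n -/

open NumberField IsDedekindDomain

namespace H41V

open H41S
open H55N H55P
open H55B (g)
open H55R (Pl es fs pv tI)

theorem c2T_gcd {p n a : ℕ} (hp : p.Prime) (s : ℕ) (hg : Nat.gcd a (p ^ n) < p ^ n) :
    Nat.gcd a (p ^ (n + s)) = Nat.gcd a (p ^ n) ∧ Nat.gcd a (p ^ (n + s)) < p ^ (n + s) := by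
  have hle : p ^ n ≤ p ^ (n + s) := Nat.pow_le_pow_right hp.pos (Nat.le_add_right n s)
  have h1 : Nat.gcd a (p ^ (n + s)) = Nat.gcd a (p ^ n) := by
    obtain ⟨k, hk, hk'⟩ := (Nat.dvd_prime_pow hp).1 (Nat.gcd_dvd_right a (p ^ (n + s)))
    obtain ⟨l, hl, hl'⟩ := (Nat.dvd_prime_pow hp).1 (Nat.gcd_dvd_right a (p ^ n))
    rw [hl'] at hg
    have hln : l < n := (Nat.pow_lt_pow_iff_right hp.one_lt).1 hg
    have h2 : k < n := by
      by_contra hkn
      have h3 : p ^ n ∣ a := by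
        refine dvd_trans (pow_dvd_pow p (not_lt.1 hkn)) ?_
        rw [← hk']
        exact Nat.gcd_dvd_left _ _
      have h4 : Nat.gcd a (p ^ n) = p ^ n := Nat.gcd_eq_right h3
      rw [hl'] at h4
      exact absurd h4 hg.ne
    apply Nat.dvd_antisymm
    · refine Nat.dvd_gcd (Nat.gcd_dvd_left _ _) ?_
      rw [hk']
      exact pow_dvd_pow p h2.le
    · exact Nat.dvd_gcd (Nat.gcd_dvd_left _ _) ((Nat.gcd_dvd_right _ _).trans (pow_dvd_pow p (Nat.le_add_right n s)))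
  exact ⟨h1, by rw [h1]; exact lt_of_lt_of_le hg hle⟩

section

variable (V : ValuationSubring ℂ) {p : ℕ}

/-- The value of the polynomial at a primitive root of order p^(n+s+1) when it is known modulo X^(p^n) - 1. -/
theorem c2_mainT (hp : p.Prime) (hV : V.valuation (p : ℂ) < 1) {n s : ℕ} {η : ℂ} (hη : IsPrimitiveRoot η (p ^ (n + s + 1)))
    {ι : Type} (R A : Finset ι) (hA : A ⊆ R) (β : ι → ℂ) (a : ι → ℕ) (P P' : Polynomial V)
    (hβ : ∀ w ∈ R, V.valuation (β w) ≤ 1) (h1 : ∀ w ∈ R, w ∉ A → V.valuation (1 - β w) = 1)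
    (h2 : ∀ w ∈ A, V.valuation (1 - β w) ≤ V.valuation (p : ℂ))
    (hr : ∑ w ∈ A, Nat.gcd (a w) (p ^ n) < p ^ n) (hP' : V.valuation (Polynomial.aeval (1 : ℂ) P') = 1)
    (hc : ∀ j : ℕ, Polynomial.aeval (η ^ (p ^ (s + 1) * j)) P =
      (∏ w ∈ R, (1 - β w * (η ^ (p ^ (s + 1) * j)) ^ a w)) * Polynomial.aeval (η ^ (p ^ (s + 1) * j)) P')
    (j : ℕ) (hj : ¬ p ∣ j) :
    V.valuation (Polynomial.aeval (η ^ j) P) = V.valuation (1 - η) ^ (∑ w ∈ A, Nat.gcd (a w) (p ^ n)) := by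
  classical
  obtain ⟨hπ1, hπ0⟩ := c1_lt V hp hV hη
  have hcop : Nat.Coprime j (p ^ (n + s + 1)) := Nat.Coprime.pow_right _ ((Nat.Prime.coprime_iff_not_dvd hp).2 hj).symm
  have hpos : 0 < p ^ (n + s + 1) := pow_pos hp.pos _
  have hy : IsPrimitiveRoot (η ^ j) (p ^ (n + s + 1)) := hη.pow_of_coprime j hcop
  have hπy : V.valuation (1 - η ^ j) = V.valuation (1 - η) := c1_eq V hpos hη hcop
  set y : ℂ := η ^ j with hydef
  have hyN : y ^ (p ^ (n + s + 1)) = 1 := hy.pow_eq_one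
  have hpn : 0 < p ^ n := pow_pos hp.pos _
  have hyle : V.valuation y ≤ 1 := by
    have : y = 1 - (1 - y) := by ring
    rw [this]
    refine (V.valuation.map_sub _ _).trans ?_
    rw [map_one, hπy]
    exact max_le le_rfl hπ1.le
  have hpw : ∀ k : ℕ, ∀ m : ℕ, m < k → V.valuation (1 - η) ^ k < V.valuation (1 - η) ^ m := fun k m hkm =>
    pow_lt_pow_right_of_lt_one₀ hπ0 hπ1 hkm
  -- the factors
  have hout : ∀ w ∈ R, w ∉ A → V.valuation (1 - β w * y ^ a w) = 1 := by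
    intro w hw hwA
    have e : 1 - β w * y ^ a w = (1 - β w) + β w * (1 - y ^ a w) := by ring
    have hlt : V.valuation (β w * (1 - y ^ a w)) < V.valuation (1 - β w) := by
      rw [h1 w hw hwA, map_mul]
      have hle := c1_le V hpos hyN (a w)
      rw [hπy] at hle
      calc V.valuation (β w) * V.valuation (1 - y ^ a w) ≤ 1 * V.valuation (1 - η) := by
            gcongr
            exact hβ w hw
        _ = V.valuation (1 - η) := one_mul _
        _ < 1 := hπ1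
    rw [e, Valuation.map_add_eq_of_lt_left _ hlt, h1 w hw hwA]
  have hin : ∀ w ∈ A, V.valuation (1 - β w * y ^ a w) = V.valuation (1 - η) ^ Nat.gcd (a w) (p ^ n) := by
    intro w hw
    have hg : Nat.gcd (a w) (p ^ n) < p ^ n :=
      lt_of_le_of_lt (Finset.single_le_sum (f := fun w => Nat.gcd (a w) (p ^ n)) (fun _ _ => Nat.zero_le _) hw) hr
    have hva := c1_gcd V hp hy (c2T_gcd hp s hg).2
    rw [hπy, (c2T_gcd hp s hg).1] at hva
    have hple : V.valuation (1 - β w) < V.valuation (1 - η) ^ Nat.gcd (a w) (p ^ n) := by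
      refine lt_of_le_of_lt (h2 w hw) ?_
      rw [← c1_root V hp hη]
      apply hpw
      calc Nat.gcd (a w) (p ^ n) < p ^ n * 1 := by simpa using hg
        _ ≤ p ^ (n + s) * (p - 1) := Nat.mul_le_mul (Nat.pow_le_pow_right hp.pos (Nat.le_add_right n s))
          (by have := hp.two_le; omega)
    have hβ1 : V.valuation (β w) = 1 := by
      have e : β w = 1 - (1 - β w) := by ring
      have hlt : V.valuation (1 - β w) < V.valuation (1 : ℂ) := by
        rw [map_one]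
        exact lt_of_lt_of_le hple (pow_le_one₀ zero_le hπ1.le)
      rw [e, Valuation.map_sub_eq_of_lt_left _ hlt, map_one]
    have e : 1 - β w * y ^ a w = (1 - β w) + β w * (1 - y ^ a w) := by ring
    have hval : V.valuation (β w * (1 - y ^ a w)) = V.valuation (1 - η) ^ Nat.gcd (a w) (p ^ n) := by
      rw [map_mul, hβ1, one_mul, hva]
    rw [e, Valuation.map_add_eq_of_lt_right _ (by rw [hval]; exact hple), hval]
  have hprod : V.valuation (∏ w ∈ R, (1 - β w * y ^ a w)) = V.valuation (1 - η) ^ (∑ w ∈ A, Nat.gcd (a w) (p ^ n)) := by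
    rw [map_prod, ← Finset.prod_subset hA (fun w hw hwA => hout w hw hwA), Finset.prod_congr rfl hin,
      Finset.prod_pow_eq_pow_sum]
  -- the polynomial D
  let β' : ι → V := fun w => if h : V.valuation (β w) ≤ 1 then ⟨β w, (V.valuation_le_one_iff _).1 h⟩ else 0
  have hβ' : ∀ w ∈ R, algebraMap V ℂ (β' w) = β w := by
    intro w hw
    have : β' w = ⟨β w, (V.valuation_le_one_iff _).1 (hβ w hw)⟩ := dif_pos (hβ w hw)
    rw [this]
    rfl
  have hDx : ∀ x : ℂ, Polynomial.aeval x (P - (∏ w ∈ R, (1 - Polynomial.C (β' w) * Polynomial.X ^ a w)) * P') =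
      Polynomial.aeval x P - (∏ w ∈ R, (1 - β w * x ^ a w)) * Polynomial.aeval x P' := by
    intro x
    rw [map_sub, map_mul, map_prod]
    congr 2
    refine Finset.prod_congr rfl (fun w hw => ?_)
    rw [map_sub, map_one, map_mul, map_pow, Polynomial.aeval_X, Polynomial.aeval_C, hβ' w hw]
  have hz : IsPrimitiveRoot (η ^ p ^ (s + 1)) (p ^ n) := hη.pow hpos (by rw [add_assoc, pow_add, mul_comm])
  have hD := c2_poly V hpn hz (P - (∏ w ∈ R, (1 - Polynomial.C (β' w) * Polynomial.X ^ a w)) * P')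
    (fun i => by rw [hDx, ← pow_mul, hc i, sub_self]) y hyle
  have hyp : V.valuation (y ^ (p ^ n) - 1) = V.valuation (1 - η) ^ p ^ n := by
    rw [V.valuation.map_sub_swap, hydef, ← pow_mul, mul_comm j, c1_pow V hp hη (Nat.le_add_right n s) hj]
  rw [hyp] at hD
  have hlt := lt_of_le_of_lt hD (hpw _ _ hr)
  rw [hDx] at hlt
  have hP'y : V.valuation (Polynomial.aeval y P') = 1 := c2_unit V P' hP' y (by rw [hπy]; exact hπ1)
  have hmain : V.valuation ((∏ w ∈ R, (1 - β w * y ^ a w)) * Polynomial.aeval y P') = V.valuation (1 - η) ^ (∑ w ∈ A, Nat.gcd (a w) (p ^ n)) := by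
    rw [map_mul, hprod, hP'y, mul_one]
  have e : Polynomial.aeval y P = (Polynomial.aeval y P - (∏ w ∈ R, (1 - β w * y ^ a w)) * Polynomial.aeval y P') +
      (∏ w ∈ R, (1 - β w * y ^ a w)) * Polynomial.aeval y P' := by ring
  rw [e, Valuation.map_add_eq_of_lt_right _ (by rw [hmain]; exact hlt), hmain]

end

variable {F : Type} [Field F] [NumberField F] [IQ F] {K : Type} [Field K] [NumberField K]
  [Algebra F K]

/-- The valuations of the L-values of the faithful powers of the character. -/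
theorem tw_valT (p : ℕ) (hp : p.Prime) {M : Ideal (𝓞 F)} {ψ : Ideal (𝓞 F) →*₀ 𝓞 F}
    (h : IsHecke M ψ) (hMp : IsCoprime M (Ideal.span {(p : 𝓞 F)})) (hF : UnrP p F) (hK : UnrP p K)
    (Ac Bc Om : ℂ) (hper : Per F Ac Bc Om) (V : ValuationSubring ℂ)
    (hV : V.valuation (p : ℂ) < 1) (hg : GoodV Ac Bc V) (hNT : NTP K p M ψ V) {n s : ℕ} (f f' : Ideal (𝓞 K))
    (φ φ' : Pl K → ℂˣ) (hφ : CH p (p ^ (n + s + 1)) f φ) (hφ' : CH p (p ^ n) f' φ')
    (hff : ∀ v : Pl K, f' ≤ v.asIdeal → f ≤ v.asIdeal)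
    (hcmp : ∀ v : Pl K, ¬ f ≤ v.asIdeal → φ' v = φ v ^ p ^ (s + 1))
    (hLM : LVP F V Om (PsiP K ψ))
    (hna : ∀ w : Pl K, f' ≤ w.asIdeal → V.valuation (1 - (starRingEnd ℂ) (PsiP K ψ w.asIdeal)) = 1)
    (A : Finset (Pl K))
    (hA : ∀ w, w ∈ A ↔ f ≤ w.asIdeal ∧ V.valuation (1 - (starRingEnd ℂ) (PsiP K ψ w.asIdeal)) ≠ 1)
    (gg : Pl K → ℕ) (hgg : ∀ w ∈ A, gg w * orderOf (φ' w) = p ^ n) (hr : ∑ w ∈ A, gg w < p ^ n)
    (η : ℂ) (hη : IsPrimitiveRoot η (p ^ (n + s + 1))) (j : ℕ) (hj : ¬ p ∣ j) :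
    ∃ Λ : ℂ → ℂ, AnalyticOnNhd ℂ Λ {s | 1 / 2 < s.re} ∧
      (∀ s : ℂ, 3 / 2 < s.re → HasSum (tm (tw ψ f φ j) s) (Λ s)) ∧
      V.valuation (Λ 1 / Om ^ Module.finrank F K) = V.valuation (1 - η) ^ (∑ w ∈ A, gg w) := by
  classical
  have hN : 0 < p ^ (n + s + 1) := pow_pos hp.pos _
  have hN' : 0 < p ^ n := pow_pos hp.pos _
  have hη' : IsPrimitiveRoot (η ^ p ^ (s + 1)) (p ^ n) := hη.pow hN (by rw [add_assoc, pow_add, mul_comm])
  have hφ'' : CH (p ^ (s + 1)) (p ^ n) f' φ' := ⟨hφ'.ne, by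
    have h1 := IsCoprime.pow_right (n := s + 1) hφ'.cop
    rwa [Ideal.span_singleton_pow, ← Nat.cast_pow] at h1, hφ'.val, hφ'.per⟩
  obtain ⟨m, hm⟩ : ∃ m, Module.finrank F K = m + 1 :=
    ⟨Module.finrank F K - 1, (Nat.sub_add_cancel Module.finrank_pos).symm⟩
  obtain ⟨Bad1, hB1, hP1⟩ := smv p hp h hMp hK Ac Bc Om hper V hV hg hN f φ hφ η hη hm
  obtain ⟨Bad2, hB2, hP2⟩ := smv p hp h hMp hK Ac Bc Om hper V hV hg hN' f' φ' hφ' (η ^ p ^ (s + 1)) hη' hm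
  obtain ⟨c, q, hs, hcb, hun⟩ := exists_smoothP p hp h hMp V hV hNT m
    (Bad1 ∪ Bad2 ∪ {w : Ideal (𝓞 K) | f ≤ w}) ((hB1.union hB2).union (pt9_finite f hφ.ne))
  have hcp : ∀ i, (c i).IsPrime := fun i => (hcb i).1
  obtain ⟨P, hP⟩ := hP1 c q hs fun i => ⟨hcp i, fun h1 => (hcb i).2 (Or.inl (Or.inl h1))⟩
  obtain ⟨P', hP'⟩ := hP2 c q hs fun i => ⟨hcp i, fun h1 => (hcb i).2 (Or.inl (Or.inr h1))⟩
  choose Λ hΛa hΛs hΛe using hP
  choose Λ' hΛa' hΛs' hΛe' using hP'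
  have hcf : ∀ i, IsCoprime (c i) f := by
    intro i
    rw [cop_iff _ _ (pt3_ne hs i)]
    intro v hv hfv
    have h1 : c i = v.asIdeal := ((hcp i).isMaximal (pt3_ne hs i)).eq_of_le v.isPrime.ne_top hv
    apply (hcb i).2
    right
    show f ≤ c i
    rw [h1]
    exact hfv
  -- the primes containing f
  have hfin : {w : HeightOneSpectrum (𝓞 K) | w.asIdeal ∣ f}.Finite := Ideal.finite_factors hφ.ne
  obtain ⟨S, hS⟩ : ∃ S : Finset (Pl K), ∀ w, w ∈ S ↔ f ≤ w.asIdeal := ⟨hfin.toFinset, fun w => by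
    rw [Set.Finite.mem_toFinset]
    exact Ideal.dvd_iff_le⟩
  obtain ⟨R, hR⟩ : ∃ R : Finset (Pl K), R = S.filter (fun w => ¬ f' ≤ w.asIdeal) := ⟨_, rfl⟩
  have hRmem : ∀ w, w ∈ R ↔ f ≤ w.asIdeal ∧ ¬ f' ≤ w.asIdeal := fun w => by
    rw [hR, Finset.mem_filter, hS]
  have hwp : ∀ w : Pl K, f ≤ w.asIdeal → IsCoprime w.asIdeal (Ideal.span {(p : 𝓞 K)}) := by
    intro w hw
    have h1 := hφ.cop
    rw [Ideal.isCoprime_iff_sup_eq] at h1 ⊢
    rw [← top_le_iff, ← h1]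
    exact sup_le_sup_right hw _
  have hroot : ∀ w : Pl K, ∃ a : ℕ, (η ^ p ^ (s + 1)) ^ a = (φ' w : ℂ) := fun w => by
    have : NeZero (p ^ n) := ⟨hN'.ne'⟩
    have h1 : (φ' w : ℂ) ^ (p ^ n) = 1 := by
      rw [← Units.val_pow_eq_pow_val, Units.val_eq_one]
      exact congrFun hφ'.val w
    obtain ⟨a, -, ha⟩ := hη'.eq_pow_of_pow_eq_one h1
    exact ⟨a, ha⟩
  choose a ha using hroot
  have hAR : A ⊆ R := by
    intro w hw
    rw [hA] at hw
    rw [hRmem]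
    exact ⟨hw.1, fun h1 => hw.2 (hna w h1)⟩
  have hgcd : ∀ w ∈ A, Nat.gcd (a w) (p ^ n) = gg w := by
    intro w hw
    refine a6_gcd hp hη' ?_
    rw [ha w, orderOf_units]
    exact hgg w hw
  have hsum : ∑ w ∈ A, Nat.gcd (a w) (p ^ n) = ∑ w ∈ A, gg w := Finset.sum_congr rfl hgcd
  -- the comparison
  have hc : ∀ j : ℕ, Polynomial.aeval (η ^ (p ^ (s + 1) * j)) P =
      (∏ w ∈ R, (1 - tm (PsiP K ψ) 1 w.asIdeal * (η ^ (p ^ (s + 1) * j)) ^ a w)) * Polynomial.aeval (η ^ (p ^ (s + 1) * j)) P' := by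
    intro j
    have e1 := hΛe (p ^ (s + 1) * j)
    have e2 := hΛe' j
    rw [← pow_mul] at e2
    rw [← e1, ← e2, tw_cmpL h hN'.ne' f f' hφ.ne φ φ' hφ'' hff hcmp j (Λ (p ^ (s + 1) * j)) (Λ' j) (hΛa _) (hΛa' _)
      (hΛs _) (hΛs' _) S hS]
    have e3 : ∏ i, (1 - (q i : ℂ) * tm (tw ψ f φ (p ^ (s + 1) * j)) 1 (c i)) =
        ∏ i, (1 - (q i : ℂ) * tm (tw ψ f' φ' j) 1 (c i)) := by
      refine Finset.prod_congr rfl fun i _ => ?_
      have e4 : tm (tw ψ f φ (p ^ (s + 1) * j)) 1 (c i) = tm (tw ψ f' φ' j) 1 (c i) := by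
        rw [tw_cmp ψ f f' φ φ' hff hcmp j]
        show (tw ψ f' φ' j (c i) * oneI f (c i)) * _ = tw ψ f' φ' j (c i) * _
        rw [oneI_one f _ (pt3_ne hs i) (hcf i), mul_one]
      rw [e4]
    have e5 : ∏ w ∈ S, (1 - tm (tw ψ f' φ' j) 1 w.asIdeal) =
        ∏ w ∈ R, (1 - tm (PsiP K ψ) 1 w.asIdeal * (η ^ (p ^ (s + 1) * j)) ^ a w) := by
      rw [hR, Finset.prod_filter]
      refine Finset.prod_congr rfl fun w hw => ?_
      by_cases hfw : f' ≤ w.asIdeal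
      · rw [if_neg (not_not.2 hfw)]
        have e6 : tw ψ f' φ' j w.asIdeal = 0 := by
          refine tw_zero ψ f' φ' j fun hcop => ?_
          exact (cop_iff _ _ w.ne_bot).1 hcop w le_rfl hfw
        unfold tm
        rw [e6, zero_mul, sub_zero]
      · rw [if_pos hfw]
        have e6 : tw ψ f' φ' j w.asIdeal = PsiP K ψ w.asIdeal * (φ' w : ℂ) ^ j := by
          rw [tw_apply ψ f' φ' j w.ne_bot (H55R.cop_prime w _ hfw), H55R.pv_prime]
        unfold tm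
        rw [e6, ← ha w]
        ring
    rw [e3, e5]
    ring
  -- the unit
  have u1 : ∀ (f : Ideal (𝓞 K)) (φ : Pl K → ℂˣ) (e : ℕ) (_ : CH p (p ^ e) f φ) (j : ℕ),
      V.valuation (∏ i, (1 - (q i : ℂ) * tm (tw ψ f φ j) 1 (c i))) = 1 := by
    intro f φ e hφ j
    rw [map_prod]
    refine Finset.prod_eq_one fun i _ => factorQ p hp V hV ψ (tI f (φ ^ j)) (c i) (q i) (hs.prime i) (hs.norm i)
      (hun i) e (hφ.tI_pow j (c i))
  have hP1u : V.valuation (Polynomial.aeval (1 : ℂ) P') = 1 := by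
    obtain ⟨ΛK, hKa, hKs, hKu⟩ := hLM
    obtain ⟨S', hS', hval⟩ := tw_trivL h f' hφ'.ne φ' (Λ' 0) ΛK (hΛa' 0) hKa (hΛs' 0) hKs
    have e1 := hΛe' 0
    rw [pow_zero] at e1
    rw [← e1, map_mul, u1 f' φ' n hφ' 0, one_mul, hval, mul_div_assoc, map_mul, hKu, mul_one, map_prod]
    refine Finset.prod_eq_one fun w hw => ?_
    exact EfacP p hp V hV h w (hwp w (hff w ((hS' w).1 hw))) (hna w ((hS' w).1 hw))
  have hmain := c2_mainT V hp hV hη R A hAR (fun w => tm (PsiP K ψ) 1 w.asIdeal) a P P'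
    (fun w hw => a5_le hp h V hV w (hwp w ((hRmem w).1 hw).1))
    (fun w hw hwA => by
      refine EfacP p hp V hV h w (hwp w ((hRmem w).1 hw).1) ?_
      by_contra hne
      exact hwA ((hA w).2 ⟨((hRmem w).1 hw).1, hne⟩))
    (fun w hw => a5_an hp hF h V hV w (hwp w ((hA w).1 hw).1) ((hA w).1 hw).2)
    (by rw [hsum]; exact hr) hP1u hc j hj
  refine ⟨Λ j, hΛa j, hΛs j, ?_⟩
  rw [← hsum, ← hmain, ← hΛe j, map_mul, u1 f φ (n + s + 1) hφ j, one_mul]

end H41V
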