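import Mathlib
import Pool.Agent.Lib.H41V.A
import Pool.Agent.Lib.H41S.Fin

/-! # H41V: one step in the tower: from K' to K, both cyclic over M, when the L-value over the subfield K₀ is a unit -/

open NumberField IsDedekindDomain

namespace H41V

open H41S
open H55N H55P
open H55R (Pl es fs pv tI)

/-- A faithful character of a cyclic group induces, after raising to the power k, a faithful character of the quotient of index k. -/
theorem b1_pairT {G G' : Type} [Group G] [Group G'] [Finite G] [Finite G'] (hc : IsCyclic G) {k N : ℕ} (hk : 0 < k) (hN : 0 < N)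
    (hG : Nat.card G = N * k) (hG' : Nat.card G' = N) (r : G →* G') (hr : Function.Surjective r) (θ : G →* ℂˣ)
    (hθ : Function.Injective θ) : ∃ θ' : G' →* ℂˣ, Function.Injective θ' ∧ ∀ s, θ' (r s) = θ s ^ k := by
  classical
  have hker : Nat.card r.ker = k := by
    have h1 := Subgroup.card_mul_index r.ker
    rw [Subgroup.index_ker, MonoidHom.range_eq_top.2 hr, Subgroup.card_top, hG, hG', mul_comm N k] at h1
    exact Nat.eq_of_mul_eq_mul_right hN h1
  have hk1 : ∀ s ∈ r.ker, s ^ k = 1 := by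
    intro s hs
    have h2 : (⟨s, hs⟩ : r.ker) ^ Nat.card r.ker = 1 := pow_card_eq_one'
    rw [hker] at h2
    have h3 := congrArg Subtype.val h2
    simpa using h3
  have hk2 : ∀ s : G, s ^ k = 1 → r s = 1 := by
    intro s hs
    have : Fintype G := Fintype.ofFinite G
    have h3 : (Finset.univ.filter fun a : G => a ^ k = 1).card ≤ k := IsCyclic.card_pow_eq_one_le hk
    have h4 : (Finset.univ.filter fun a : G => a ∈ r.ker).card = k := by
      rw [← hker, Nat.card_eq_fintype_card, Fintype.card_subtype]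
    have h5 : (Finset.univ.filter fun a : G => a ∈ r.ker) ⊆ Finset.univ.filter fun a : G => a ^ k = 1 := by
      intro a ha
      rw [Finset.mem_filter] at ha ⊢
      exact ⟨ha.1, hk1 a ha.2⟩
    have h6 := Finset.eq_of_subset_of_card_le h5 (by rw [h4]; exact h3)
    have h7 : s ∈ Finset.univ.filter fun a : G => a ^ k = 1 := Finset.mem_filter.2 ⟨Finset.mem_univ _, hs⟩
    rw [← h6, Finset.mem_filter] at h7
    exact h7.2
  have hle : r.ker ≤ ((powMonoidHom k).comp θ).ker := by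
    intro s hs
    rw [MonoidHom.mem_ker, MonoidHom.comp_apply, powMonoidHom_apply, ← map_pow, hk1 s hs, map_one]
  have hval : ∀ s, (r.liftOfSurjective hr ⟨(powMonoidHom k).comp θ, hle⟩) (r s) = θ s ^ k := by
    intro s
    exact MonoidHom.liftOfRightInverse_comp_apply r (Function.surjInv hr) (Function.rightInverse_surjInv hr)
      ⟨(powMonoidHom k).comp θ, hle⟩ s
  refine ⟨r.liftOfSurjective hr ⟨(powMonoidHom k).comp θ, hle⟩, ?_, hval⟩
  rw [injective_iff_map_eq_one]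
  intro y hy
  obtain ⟨s, rfl⟩ := hr y
  rw [hval, ← map_pow] at hy
  exact hk2 s (hθ (hy.trans (map_one θ).symm))

/-- The ramification indices in a tower. -/
theorem es_tower (M K' K : Type) [Field M] [NumberField M] [Field K'] [NumberField K'] [Field K] [NumberField K]
    [Algebra M K'] [Algebra M K] [Algebra K' K] [IsScalarTower M K' K] [IsGalois M K] [IsGalois M K'] [IsGalois K' K]
    (v : Pl M) (w : Pl K') (hw : w.asIdeal.under (𝓞 M) = v.asIdeal) : es M K v = es M K' v * es K' K w := by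
  obtain ⟨W, hW⟩ := H55R.under_exists (K := K') (L := K) w
  have hWp := W.isPrime
  have h1 : W.asIdeal.under (𝓞 K') = w.asIdeal := congrArg HeightOneSpectrum.asIdeal hW
  have h2 : W.asIdeal.under (𝓞 M) = v.asIdeal := by
    rw [← hw, ← h1, Ideal.under_under]
  have h3 := H55P.cl_tower (M := M) (X := K') W.asIdeal
  rw [← b4_es v W h2, h1, ← b4_es v w hw, ← b4_es w W h1] at h3
  exact h3

variable {F : Type} [Field F] [NumberField F] [IQ F]

/-- One step: K/M cyclic of degree p^(n+s+1), K' of degree p^(n+s), K₀ of degree p^n; the L-value over K₀ is a unit. The L-value over K is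
the L-value over K' times p^r, r the number of the anomalous primes of K₀ ramified in K. -/
theorem main_step (M K₀ K' K : Type) [Field M] [NumberField M] [Field K₀] [NumberField K₀] [Field K'] [NumberField K'] [Field K]
    [NumberField K] [Algebra F M] [Algebra F K₀] [Algebra F K'] [Algebra F K] [Algebra M K₀] [Algebra M K'] [Algebra M K]
    [Algebra K₀ K] [Algebra K' K] [IsScalarTower F M K₀] [IsScalarTower F M K'] [IsScalarTower F M K] [IsScalarTower F K₀ K]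
    [IsScalarTower F K' K] [IsScalarTower M K₀ K] [IsScalarTower M K' K] [IsGalois M K] [IsGalois M K₀] [IsGalois M K']
    [IsGalois K₀ K] [IsGalois K' K]
    (hc : IsCyclic (K ≃ₐ[M] K)) {p n s : ℕ} (hp : p.Prime) (hd : Module.finrank M K = p ^ (n + s + 1))
    (hd' : Module.finrank M K' = p ^ (n + s)) (hd₀ : Module.finrank M K₀ = p ^ n)
    {m : Ideal (𝓞 F)} {ψ : Ideal (𝓞 F) →*₀ 𝓞 F} (h : IsHecke m ψ)
    (hmp : IsCoprime m (Ideal.span {(p : 𝓞 F)})) (hU : UnrP p K) (Ac Bc Om : ℂ) (hper : Per F Ac Bc Om)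
    (V : ValuationSubring ℂ) (hV : V.valuation (p : ℂ) < 1) (hg : GoodV Ac Bc V) (hNT : NTP M p m ψ V)
    (hLM : LVP F V Om (PsiP M ψ))
    (hna : ∀ v : Pl M, es M K₀ v ≠ 1 → V.valuation (1 - (starRingEnd ℂ) (PsiP M ψ v.asIdeal)) = 1)
    (T : Finset (Pl K₀)) (hT : ∀ w, w ∈ T ↔ es K₀ K w ≠ 1 ∧ V.valuation (1 - (starRingEnd ℂ) (PsiP K₀ ψ w.asIdeal)) ≠ 1)
    (hr : T.card < p ^ n) (Λ' : ℂ → ℂ) (ha' : AnalyticOnNhd ℂ Λ' {s | 1 / 2 < s.re})
    (hs' : ∀ s : ℂ, 3 / 2 < s.re → HasSum (tm (PsiP K' ψ) s) (Λ' s)) :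
    ∃ Λ : ℂ → ℂ, AnalyticOnNhd ℂ Λ {s | 1 / 2 < s.re} ∧
      (∀ s : ℂ, 3 / 2 < s.re → HasSum (tm (PsiP K ψ) s) (Λ s)) ∧
      V.valuation (Λ 1 / Om ^ Module.finrank F K) =
        V.valuation (Λ' 1 / Om ^ Module.finrank F K') * V.valuation (p : ℂ) ^ T.card := by
  classical
  have hN : 0 < p ^ (n + s + 1) := pow_pos hp.pos _
  have hNs : 0 < p ^ (n + s) := pow_pos hp.pos _
  have hN' : 0 < p ^ n := pow_pos hp.pos _
  have hdK : Module.finrank K' K = p := by
    have h1 := Module.finrank_mul_finrank M K' K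
    rw [hd, hd', pow_succ] at h1
    exact Nat.eq_of_mul_eq_mul_left hNs h1
  have hK₀u : UnrP p K₀ := UnrP.down K₀ K p hp hU
  have hK'u : UnrP p K' := UnrP.down K' K p hp hU
  have hMu : UnrP p M := UnrP.down M K p hp hU
  have hFu : UnrP p F := UnrP.down F K p hp hU
  have hre : IsEmpty (M →+* ℝ) := H35M.sx3_real F M
  have hG : Nat.card (K ≃ₐ[M] K) = p ^ (n + s + 1) := by rw [IsGalois.card_aut_eq_finrank, hd]
  have hG' : Nat.card (K' ≃ₐ[M] K') = p ^ (n + s) := by rw [IsGalois.card_aut_eq_finrank, hd']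
  have hG₀ : Nat.card (K₀ ≃ₐ[M] K₀) = p ^ n := by rw [IsGalois.card_aut_eq_finrank, hd₀]
  obtain ⟨θ, hθ⟩ := b1_theta hc
  obtain ⟨θ', hθ', hθθ'⟩ := b1_pairT hc (k := p) (N := p ^ (n + s)) hp.pos hNs (by rw [hG, pow_succ]) hG'
    (AlgEquiv.restrictNormalHom K' : (K ≃ₐ[M] K) →* (K' ≃ₐ[M] K')) (AlgEquiv.restrictNormalHom_surjective K) θ hθ
  obtain ⟨θ₀, hθ₀, hθθ₀⟩ := b1_pairT hc (k := p ^ (s + 1)) (N := p ^ n) (pow_pos hp.pos _) hN'
    (by rw [hG, add_assoc, pow_add]) hG₀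
    (AlgEquiv.restrictNormalHom K₀ : (K ≃ₐ[M] K) →* (K₀ ≃ₐ[M] K₀)) (AlgEquiv.restrictNormalHom_surjective K) θ hθ
  have hab : ∀ a b : K ≃ₐ[M] K, a * b = b * a := by
    intro a b
    apply hθ
    rw [map_mul, map_mul, mul_comm]
  have hcmp : ∀ v : Pl M, es M K v = 1 → θ' (CFT.frob M K' v) = θ (CFT.frob M K v) ^ p := by
    intro v hv
    rw [← hθθ', CFT.frob_res M K' K hab ((SSR.c2_unr v).2 hv)]
  obtain ⟨f, hφ, hf⟩ := b2_CH M K p hp hU hre θ hθ
  obtain ⟨f₀, hφ₀, hf₀⟩ := b2_CH M K₀ p hp hK₀u hre θ₀ hθ₀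
  rw [hG] at hφ
  rw [hG₀] at hφ₀
  have hff : ∀ v : Pl M, f₀ ≤ v.asIdeal → f ≤ v.asIdeal := by
    intro v hv
    rw [hf]
    rw [hf₀] at hv
    exact fun h1 => hv (b4_unr M K₀ K v h1).1
  have hcmp₀ : ∀ v : Pl M, ¬ f ≤ v.asIdeal → θ₀ (CFT.frob M K₀ v) = θ (CFT.frob M K v) ^ p ^ (s + 1) := by
    intro v hv
    have hv1 : es M K v = 1 := by
      by_contra h1
      exact hv ((hf v).2 h1)
    rw [← hθθ₀, CFT.frob_res M K₀ K hab ((SSR.c2_unr v).2 hv1)]
  -- the anomalous ramified primes of M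
  have hfin : {w : HeightOneSpectrum (𝓞 M) | w.asIdeal ∣ f}.Finite := Ideal.finite_factors hφ.ne
  obtain ⟨A, hA⟩ : ∃ A : Finset (Pl M), ∀ w, w ∈ A ↔ f ≤ w.asIdeal ∧
      V.valuation (1 - (starRingEnd ℂ) (PsiP M ψ w.asIdeal)) ≠ 1 :=
    ⟨hfin.toFinset.filter fun w => V.valuation (1 - (starRingEnd ℂ) (PsiP M ψ w.asIdeal)) ≠ 1, fun w => by
      rw [Finset.mem_filter, Set.Finite.mem_toFinset]
      exact and_congr_left fun _ => Ideal.dvd_iff_le⟩
  have hB0 : ∀ v : Pl M, ∃ B : Finset (Pl K₀), ∀ w, w ∈ B ↔ w.asIdeal.under (𝓞 M) = v.asIdeal := fun v => by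
    obtain ⟨B, hB, -⟩ := pt10_card (K' := K₀) v
    exact ⟨B, hB⟩
  choose B hB using hB0
  have hAu : ∀ v ∈ A, es M K₀ v = 1 := by
    intro v hv
    by_contra h1
    exact ((hA v).1 hv).2 (hna v h1)
  have hTB : T = A.biUnion B := by
    ext w
    rw [hT, Finset.mem_biUnion]
    constructor
    · rintro ⟨h1, h2⟩
      let v : Pl M := HeightOneSpectrum.under (𝓞 M) w
      have hv : w.asIdeal.under (𝓞 M) = v.asIdeal := rfl
      refine ⟨v, ?_, (hB v w).2 hv⟩
      rw [hA, hf]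
      refine ⟨fun h3 => h1 ((b4_unr M K₀ K v h3).2 w hv), fun h3 => h2 ?_⟩
      exact (adm_iff M K₀ p hp V hV v w hv (fin_deg hp hd₀ v w hv)).1 h3
    · rintro ⟨v, hvA, hwB⟩
      have hv := (hB v w).1 hwB
      have hu := hAu v hvA
      rw [hA, hf] at hvA
      refine ⟨fun h3 => hvA.1 ?_, fun h3 => hvA.2 ?_⟩
      · rw [es_tower M K₀ K v w hv, hu, h3]
      · exact (adm_iff M K₀ p hp V hV v w hv (fin_deg hp hd₀ v w hv)).2 h3
  have hcard : ∑ v ∈ A, (B v).card = T.card := by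
    rw [hTB, Finset.card_biUnion]
    intro w _ w' _ hne
    rw [Function.onFun, Finset.disjoint_left]
    intro W hW hW'
    rw [hB] at hW hW'
    exact hne (HeightOneSpectrum.ext (hW.symm.trans hW'))
  have hgg : ∀ v ∈ A, (B v).card * orderOf (θ₀ (CFT.frob M K₀ v)) = p ^ n := by
    intro v hv
    obtain ⟨B', hB', h1, -⟩ := b5_unr M K₀ ψ θ₀ hθ₀ v (hAu v hv)
    have h2 : B' = B v := by
      ext w
      rw [hB', hB]
    rw [← h2, h1, hd₀]
  obtain ⟨η, hη⟩ : ∃ η : ℂ, IsPrimitiveRoot η (p ^ (n + s + 1)) := ⟨_, Complex.isPrimitiveRoot_exp _ hN.ne'⟩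
  have key := fun (j : ℕ) (hj : ¬ p ∣ j) => tw_valT p hp h hmp hFu hMu Ac Bc Om hper V hV hg hNT f f₀
    (fun v => θ (CFT.frob M K v)) (fun v => θ₀ (CFT.frob M K₀ v)) hφ hφ₀ hff hcmp₀ hLM
    (fun v hv => hna v ((hf₀ v).1 hv)) A hA (fun v => (B v).card) hgg (by rw [hcard]; exact hr) η hη j hj
  have key2 : ∀ j : ℕ, ∃ Λ : ℂ → ℂ, ¬ p ∣ j → AnalyticOnNhd ℂ Λ {s | 1 / 2 < s.re} ∧
      (∀ s : ℂ, 3 / 2 < s.re → HasSum (tm (tw ψ f (fun v => θ (CFT.frob M K v)) j) s) (Λ s)) ∧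
      V.valuation (Λ 1 / Om ^ Module.finrank F M) = V.valuation (1 - η) ^ T.card := by
    intro j
    by_cases hj : p ∣ j
    · exact ⟨fun _ => 0, fun h1 => absurd hj h1⟩
    · obtain ⟨Λ, h1, h2, h3⟩ := key j hj
      exact ⟨Λ, fun _ => ⟨h1, h2, by rw [h3, hcard]⟩⟩
  choose Λ hΛ using key2
  obtain ⟨J, hJ⟩ : ∃ J, J = (Finset.range (p ^ (n + s + 1))).filter (fun j => ¬ p ∣ j) := ⟨_, rfl⟩
  have hJm : ∀ j ∈ J, ¬ p ∣ j := fun j hj => by
    rw [hJ] at hj
    exact (Finset.mem_filter.1 hj).2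
  have hAI := b6_AI M K' K ψ J (fun j => tw ψ f (fun v => θ (CFT.frob M K v)) j) (fun v => by
    rw [hJ]
    exact b6_loc M K' K hc hp hd hd' hdK ψ θ θ' hθ hθ' hcmp f hf v)
  refine ⟨fun s => Λ' s * ∏ j ∈ J, Λ j s, fun s hs => (ha' s hs).mul ?_, fun s hs => ?_, ?_⟩
  · exact Finset.analyticAt_fun_prod _ fun j hj => (hΛ j (hJm j hj)).1 s hs
  · exact b6_L M K' K h J _ (fun j a => tw_norm_le h hN.ne' hφ j a) hAI Λ' hs' Λ
      (fun j hj => (hΛ j (hJm j hj)).2.1) s hs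
  · have hJc : J.card = p ^ (n + s) * (p - 1) := by rw [hJ]; exact fin_card hp (n + s)
    have hfr : Module.finrank F K = Module.finrank F K' + Module.finrank F M * (p ^ (n + s) * (p - 1)) := by
      rw [← Module.finrank_mul_finrank F M K, ← Module.finrank_mul_finrank F M K', hd, hd', ← mul_add]
      congr 1
      exact fin_arith hp (n + s)
    have h5 : Om ^ Module.finrank F K = Om ^ Module.finrank F K' * ∏ j ∈ J, Om ^ Module.finrank F M := by
      rw [hfr, pow_add, pow_mul, Finset.prod_const, hJc]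
    show V.valuation ((Λ' 1 * ∏ j ∈ J, Λ j 1) / Om ^ Module.finrank F K) = _
    rw [h5, mul_div_mul_comm, ← Finset.prod_div_distrib, map_mul, map_prod,
      Finset.prod_congr rfl fun j hj => (hΛ j (hJm j hj)).2.2, Finset.prod_const, hJc, ← pow_mul, mul_comm T.card, pow_mul,
      c1_root V hp hη]

end H41V
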