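import Mathlib
import Pool.Agent.Lib.H41V.B

/-! # H41V: the L-value over K, cyclic of degree p^(n+t+1) over M, when the L-value over the subfield K₀ of degree p^n is a unit -/

open NumberField IsDedekindDomain

namespace H41V

open H41S
open H55N H55P
open H55R (Pl es fs pv tI)

/-- The ramification index divides the degree. -/
theorem es_dvd (M L : Type) [Field M] [NumberField M] [Field L] [NumberField L] [Algebra M L] [IsGalois M L] (v : Pl M) :
    es M L v ∣ Module.finrank M L := by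
  obtain ⟨T, -, hc⟩ := pt10_card (K' := L) v
  exact ⟨T.card * fs M L v, by rw [← hc]; ring⟩

variable {F : Type} [Field F] [NumberField F] [IQ F]

theorem main_absT (M K₀ : Type) [Field M] [NumberField M] [Field K₀] [NumberField K₀] [Algebra F M] [Algebra F K₀] [Algebra M K₀]
    [IsScalarTower F M K₀] [IsGalois M K₀] {p n : ℕ} (hp : p.Prime) (hd₀ : Module.finrank M K₀ = p ^ n)
    {m : Ideal (𝓞 F)} {ψ : Ideal (𝓞 F) →*₀ 𝓞 F} (h : IsHecke m ψ)
    (hmp : IsCoprime m (Ideal.span {(p : 𝓞 F)})) (Ac Bc Om : ℂ) (hper : Per F Ac Bc Om)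
    (V : ValuationSubring ℂ) (hV : V.valuation (p : ℂ) < 1) (hg : GoodV Ac Bc V) (hNT : NTP M p m ψ V)
    (hLM : LVP F V Om (PsiP M ψ)) (hL : LVP F V Om (PsiP K₀ ψ))
    (hna : ∀ v : Pl M, es M K₀ v ≠ 1 → V.valuation (1 - (starRingEnd ℂ) (PsiP M ψ v.asIdeal)) = 1) :
    ∀ (t : ℕ) (K : Type) [Field K] [NumberField K] [Algebra F K] [Algebra M K] [Algebra K₀ K] [IsScalarTower F M K]
      [IsScalarTower F K₀ K] [IsScalarTower M K₀ K] [IsGalois M K] [IsGalois K₀ K],
      IsCyclic (K ≃ₐ[M] K) → Module.finrank M K = p ^ (n + t + 1) → UnrP p K →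
      ∀ (T : Finset (Pl K₀)), (∀ w, w ∈ T ↔ es K₀ K w ≠ 1 ∧ V.valuation (1 - (starRingEnd ℂ) (PsiP K₀ ψ w.asIdeal)) ≠ 1) →
      T.card < p ^ n → ∀ i : Pl K₀ → ℕ, (∀ w ∈ T, es K₀ K w = p ^ i w) →
      ∃ Λ : ℂ → ℂ, AnalyticOnNhd ℂ Λ {s | 1 / 2 < s.re} ∧
        (∀ s : ℂ, 3 / 2 < s.re → HasSum (tm (PsiP K ψ) s) (Λ s)) ∧
        V.valuation (Λ 1 / Om ^ Module.finrank F K) = V.valuation (p : ℂ) ^ (∑ w ∈ T, i w) := by
  classical
  have hN' : 0 < p ^ n := pow_pos hp.pos _
  intro t
  induction t with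
  | zero =>
    intro K _ _ _ _ _ _ _ _ _ _ hc hd hU T hT hr i hi
    obtain ⟨Λ', ha', hs', hu'⟩ := hL
    obtain ⟨Λ, h1, h2, h3⟩ := main_step M K₀ K₀ K hc (s := 0) hp hd (by rw [add_zero]; exact hd₀) hd₀ h hmp hU Ac Bc Om hper V hV hg hNT
      hLM hna T hT hr Λ' ha' hs'
    refine ⟨Λ, h1, h2, ?_⟩
    have hdK : Module.finrank K₀ K = p := by
      have h1 := Module.finrank_mul_finrank M K₀ K
      rw [hd, hd₀, add_zero, pow_succ] at h1
      exact Nat.eq_of_mul_eq_mul_left hN' h1
    have hi1 : ∀ w ∈ T, i w = 1 := by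
      intro w hw
      have e1 := es_dvd K₀ K w
      rw [hdK] at e1
      have e2 := (hT w).1 hw
      rcases (Nat.dvd_prime hp).1 e1 with e3 | e3
      · exact absurd e3 e2.1
      · rw [hi w hw] at e3
        exact Nat.pow_right_injective hp.two_le (by
          show p ^ i w = p ^ 1
          rw [e3, pow_one])
    rw [h3, hu', one_mul, Finset.sum_congr rfl hi1, Finset.sum_const, smul_eq_mul, mul_one]
  | succ t ih =>
    intro K _ _ _ _ _ _ _ _ _ _ hc hd hU T hT hr i hi
    have hF : Fact p.Prime := ⟨hp⟩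
    have hdK : Module.finrank K₀ K = p ^ (t + 1 + 1) := by
      have h1 := Module.finrank_mul_finrank M K₀ K
      rw [hd, hd₀, show n + (t + 1) + 1 = n + (t + 1 + 1) by ring, pow_add] at h1
      exact Nat.eq_of_mul_eq_mul_left hN' h1
    have hfd : FiniteDimensional K₀ K := Module.finite_of_finrank_pos (by rw [hdK]; exact pow_pos hp.pos _)
    have hGal : Nat.card (K ≃ₐ[K₀] K) = p ^ (t + 1 + 1) := by rw [IsGalois.card_aut_eq_finrank, hdK]
    have hc0 : IsCyclic (K ≃ₐ[K₀] K) :=
      isCyclic_of_injective (AlgEquiv.restrictScalarsHom M : (K ≃ₐ[K₀] K) →* (K ≃ₐ[M] K)) (AlgEquiv.restrictScalarsHom_injective M)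
    obtain ⟨H, hH⟩ := Sylow.exists_subgroup_card_pow_prime (G := K ≃ₐ[K₀] K) p (n := 1)
      (by rw [hGal, pow_one]; exact dvd_pow_self p (Nat.succ_ne_zero _))
    rw [pow_one] at hH
    let K' : IntermediateField K₀ K := IntermediateField.fixedField H
    have hdK' : Module.finrank K' K = p := by
      rw [← hH]
      exact IntermediateField.finrank_fixedField_eq_card H
    have hnf : NumberField K' := NumberField.of_module_finite K₀ K'
    have hdK0' : Module.finrank K₀ K' = p ^ (t + 1) := by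
      have h1 := Module.finrank_mul_finrank K₀ K' K
      rw [hdK, hdK', pow_succ p (t + 1)] at h1
      exact Nat.eq_of_mul_eq_mul_right hp.pos h1
    have t1 : IsScalarTower F M K' := IsScalarTower.of_algebraMap_eq fun x => Subtype.ext (IsScalarTower.algebraMap_apply F M K x)
    have t2 : IsScalarTower F K₀ K' := IsScalarTower.of_algebraMap_eq fun x => Subtype.ext (IsScalarTower.algebraMap_apply F K₀ K x)
    have t3 : IsScalarTower M K₀ K' := IsScalarTower.of_algebraMap_eq fun x => Subtype.ext (IsScalarTower.algebraMap_apply M K₀ K x)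
    have t4 : IsScalarTower F K' K := IsScalarTower.of_algebraMap_eq fun x => rfl
    have t5 : IsScalarTower M K' K := IsScalarTower.of_algebraMap_eq fun x => rfl
    have hab : IsMulCommutative (K ≃ₐ[M] K) := ⟨⟨fun a b => by
      letI : CommGroup (K ≃ₐ[M] K) := IsCyclic.commGroup
      exact mul_comm a b⟩⟩
    have hG1 : IsAbelianGalois M K := { (inferInstance : IsGalois M K) with }
    have hG2 : IsAbelianGalois M K' := IsAbelianGalois.tower_bot M K' K
    have g1 : IsGalois M K' := inferInstance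
    have g2 : IsGalois K₀ K' := IsGalois.tower_top_of_isGalois M K₀ K'
    have g3 : IsGalois K' K := inferInstance
    have hfM : FiniteDimensional M K := Module.finite_of_finrank_pos (by rw [hd]; exact pow_pos hp.pos _)
    have hfM' : FiniteDimensional M K' := Module.Finite.of_restrictScalars_finite ℚ M K'
    have hc' : IsCyclic (K' ≃ₐ[M] K') := isCyclic_of_surjective
      (AlgEquiv.restrictNormalHom K' : (K ≃ₐ[M] K) →* (K' ≃ₐ[M] K')) (AlgEquiv.restrictNormalHom_surjective K)
    have hdM' : Module.finrank M K' = p ^ (n + t + 1) := by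
      rw [← Module.finrank_mul_finrank M K₀ K', hd₀, hdK0', ← pow_add, add_assoc]
    have hU' : UnrP p K' := UnrP.down K' K p hp hU
    -- the ramification indices
    have hes : ∀ w : Pl K₀, ∃ W : Pl K', W.asIdeal.under (𝓞 K₀) = w.asIdeal := by
      intro w
      obtain ⟨W, hW⟩ := H55R.under_exists (K := K₀) (L := K') w
      exact ⟨W, congrArg HeightOneSpectrum.asIdeal hW⟩
    have hidx : ∀ w ∈ T, 1 ≤ i w ∧ es K₀ K' w = p ^ (i w - 1) := by
      intro w hw
      obtain ⟨W, hW⟩ := hes w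
      have e1 := es_tower K₀ K' K w W hW
      rw [b4_ram K₀ K' K hc0 hp hdK hdK' w ((hT w).1 hw).1 W hW, hi w hw] at e1
      have e2 : 1 ≤ i w := by
        by_contra h0
        have h1 : i w = 0 := by omega
        rw [h1, pow_zero] at e1
        exact hp.one_lt.ne' (Nat.eq_one_of_mul_eq_one_left e1.symm)
      refine ⟨e2, ?_⟩
      have e3 : p ^ i w = p ^ (i w - 1) * p := by
        rw [← pow_succ]
        congr 1
        omega
      rw [e3] at e1
      exact (Nat.eq_of_mul_eq_mul_right hp.pos e1).symm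
    obtain ⟨T', hT'⟩ : ∃ T' : Finset (Pl K₀), T' = T.filter fun w => es K₀ K' w ≠ 1 := ⟨_, rfl⟩
    have hTT : T' ⊆ T := by
      rw [hT']
      exact Finset.filter_subset _ _
    have hT2 : ∀ w, w ∈ T' ↔ es K₀ K' w ≠ 1 ∧ V.valuation (1 - (starRingEnd ℂ) (PsiP K₀ ψ w.asIdeal)) ≠ 1 := by
      intro w
      rw [hT', Finset.mem_filter, hT]
      constructor
      · rintro ⟨⟨-, h2⟩, h3⟩
        exact ⟨h3, h2⟩
      · rintro ⟨h1, h2⟩
        refine ⟨⟨fun h3 => h1 ?_, h2⟩, h1⟩
        obtain ⟨W, hW⟩ := hes w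
        have e1 := es_tower K₀ K' K w W hW
        rw [h3] at e1
        exact Nat.eq_one_of_mul_eq_one_right e1.symm
    obtain ⟨Λ', ha', hs', hv'⟩ := ih K' hc' hdM' hU' T' hT2 (lt_of_le_of_lt (Finset.card_le_card hTT) hr) (fun w => i w - 1)
      (fun w hw => (hidx w (hTT hw)).2)
    obtain ⟨Λ, h1, h2, h3⟩ := main_step M K₀ K' K hc (s := t + 1) hp hd hdM' hd₀ h hmp hU Ac Bc Om hper V hV hg hNT
      hLM hna T hT hr Λ' ha' hs'
    refine ⟨Λ, h1, h2, ?_⟩
    rw [h3, hv', ← pow_add]
    congr 1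
    have e1 : ∑ w ∈ T', (i w - 1) = ∑ w ∈ T, (i w - 1) := by
      refine Finset.sum_subset hTT fun w hw hw' => ?_
      have h4 : es K₀ K' w = 1 := by
        by_contra h5
        apply hw'
        rw [hT', Finset.mem_filter]
        exact ⟨hw, h5⟩
      have h5 := (hidx w hw).2
      rw [h4] at h5
      rcases Nat.eq_zero_or_pos (i w - 1) with h6 | h6
      · exact h6
      · exact absurd h5 (Nat.one_lt_pow h6.ne' hp.one_lt).ne
    rw [e1, Finset.card_eq_sum_ones, ← Finset.sum_add_distrib]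
    refine Finset.sum_congr rfl fun w hw => ?_
    have h4 := (hidx w hw).1
    omega

end H41V
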