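import Mathlib
import Pool.Agent.Lib.H41V.C
import Pool.Agent.Lib.H41S.Int

/-! # H41V: the same theorem for intermediate fields of Ω/F -/

open NumberField IsDedekindDomain

namespace H41V

open H41S
open H55N H55P
open H55R (Pl es fs pv tI)

/-- The ramification index in N of the prime w of N' (N' ≤ N intermediate fields). -/
noncomputable def eI {F : Type} [Field F] {Ω : Type} [Field Ω] [Algebra F Ω] {N' N : IntermediateField F Ω} [NumberField N']
    [NumberField N] (hle : N' ≤ N) (w : HeightOneSpectrum (𝓞 N')) : ℕ :=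
  letI := s13_alg hle
  w.asIdeal.ramificationIdxIn (𝓞 N)

variable {F : Type} [Field F] [NumberField F] {Ω : Type} [Field Ω] [DecidableEq Ω]
  [Algebra F Ω] [IsAlgClosed Ω] [Algebra.IsAlgebraic F Ω] [CharZero Ω]

/-- THE L-VALUE OVER N, N/M cyclic of degree p^(n+t), t ≥ 1, N' the subfield of degree p^n, when the L-value over N' is a unit at V and the
number of the primes of N' which are ramified in N and where 1 minus the conjugate of the Hecke character is not a unit at V is less than p^n. -/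
theorem main_intT [IQ F] {p n t : ℕ} (hp : p.Prime) (ht : 1 ≤ t) (M N' N : IntermediateField F Ω) [NumberField M] [NumberField N']
    [NumberField N] (le : M ≤ N') (le' : N' ≤ N) (γ : Ω ≃ₐ[F] Ω) (hγ : γ ∈ M.fixingSubgroup)
    (nrm : ∀ s ∈ M.fixingSubgroup, ∀ x ∈ N, s x ∈ N)
    (gen : ∀ s ∈ M.fixingSubgroup, ∃ k : ℕ, ∃ u ∈ N.fixingSubgroup, s = γ ^ k * u)
    (deg : Module.finrank F N = Module.finrank F M * p ^ (n + t)) (deg' : Module.finrank F N = Module.finrank F N' * p ^ t)
    {m : Ideal (𝓞 F)} {ψ : Ideal (𝓞 F) →*₀ 𝓞 F} (h : IsHecke m ψ)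
    (hmp : IsCoprime m (Ideal.span {(p : 𝓞 F)})) (hU : UnrP p N) (Ac Bc Om : ℂ) (hper : Per F Ac Bc Om)
    (V : ValuationSubring ℂ) (hV : V.valuation (p : ℂ) < 1) (hg : GoodV Ac Bc V) (hNT : NTP M p m ψ V)
    (hL : LVP F V Om (PsiP N' ψ)) (T : Finset (HeightOneSpectrum (𝓞 N')))
    (hT : ∀ w, w ∈ T ↔ Ram N' N w.asIdeal ∧ V.valuation (1 - (starRingEnd ℂ) (PsiP N' ψ w.asIdeal)) ≠ 1)
    (hr : T.card < p ^ n) (i : HeightOneSpectrum (𝓞 N') → ℕ) (hi : ∀ w ∈ T, eI le' w = p ^ i w) :
    ∃ Λ : ℂ → ℂ, AnalyticOnNhd ℂ Λ {s | 1 / 2 < s.re} ∧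
      (∀ s : ℂ, 3 / 2 < s.re → HasSum (tm (PsiP N ψ) s) (Λ s)) ∧
      V.valuation (Λ 1 / Om ^ Module.finrank F N) = V.valuation (p : ℂ) ^ (∑ w ∈ T, i w) := by
  obtain ⟨t, rfl⟩ : ∃ t', t = t' + 1 := ⟨t - 1, by omega⟩
  have hNf : FiniteDimensional F N := Module.Finite.of_restrictScalars_finite ℚ F N
  have hN'f : FiniteDimensional F N' := Module.Finite.of_restrictScalars_finite ℚ F N'
  have hMf : FiniteDimensional F M := Module.Finite.of_restrictScalars_finite ℚ F M
  have hL0 : PExt p M N := ⟨hNf, le.trans le', nrm, ⟨n + (t + 1), deg⟩⟩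
  letI a1 : Algebra M N' := s13_alg le
  letI a2 : Algebra M N := s13_alg (le.trans le')
  letI a3 : Algebra N' N := s13_alg le'
  have t1 : IsScalarTower F M N' := alg_tower M N' le
  have t2 : IsScalarTower F M N := alg_tower M N (le.trans le')
  have t3 : IsScalarTower F N' N := alg_tower N' N le'
  have t4 : IsScalarTower M N' N := IsScalarTower.of_algebraMap_eq fun x => rfl
  have g1 : IsGalois M N := s13_galois M N (le.trans le') nrm
  have hcyc : IsCyclic (N ≃ₐ[M] N) := int_cyc M N (le.trans le') γ hγ nrm gen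
  have g3 : IsGalois N' N := IsGalois.tower_top_of_isGalois M N' N
  have hab : IsMulCommutative (N ≃ₐ[M] N) := ⟨⟨fun a b => by
    letI : CommGroup (N ≃ₐ[M] N) := IsCyclic.commGroup
    exact mul_comm a b⟩⟩
  have g2 : IsGalois M N' := by
    have h1 : IsAbelianGalois M N := { g1 with }
    have h2 : IsAbelianGalois M N' := IsAbelianGalois.tower_bot M N' N
    infer_instance
  have hMpos : 0 < Module.finrank F M := Module.finrank_pos
  have hd : Module.finrank M N = p ^ (n + t + 1) := by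
    have h1 := Module.finrank_mul_finrank F M N
    rw [deg] at h1
    exact Nat.eq_of_mul_eq_mul_left hMpos h1
  have hd' : Module.finrank M N' = p ^ n := by
    have h1 := Module.finrank_mul_finrank F M N'
    have h2 : Module.finrank F M * Module.finrank M N' * p ^ (t + 1) = Module.finrank F M * p ^ n * p ^ (t + 1) := by
      rw [h1, ← deg', deg, pow_add, mul_assoc]
    exact Nat.eq_of_mul_eq_mul_left hMpos (Nat.eq_of_mul_eq_mul_right (pow_pos hp.pos _) h2)
  have hU' : UnrP p N' := UnrP.down N' N p hp hU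
  obtain ⟨hLM, hna⟩ := (LVP_tower_iff p hp M N hL0 h hmp Ac Bc Om hper V hV hg hNT N' le le' hU').1 hL
  refine main_absT M N' hp hd' h hmp Ac Bc Om hper V hV hg hNT hLM hL (fun v hv => ?_) t N hcyc hd hU T (fun w => ?_) hr i
    (fun w hw => hi w hw)
  · exact hna v ((ram_es M N' le v g2).2 hv)
  · rw [hT, ram_es N' N le' w g3]

end H41V
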