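import Mathlib
import Pool.Agent.Lib.H13V.Stm
import Pool.Agent.Lib.H13T.Q4

/-! # H41V: the cyclic tower over F (ports of H13T.Q3, Q4 to degree p^(n+t)) -/

open NumberField IsDedekindDomain WeierstrassCurve

namespace H41V

open H55P (IQ)
open H55K H55K.TQ
open H13T (emb emb_apply q3_one q3_dich q3_dvd q3_two q_fix)

variable {F : Type} [Field F] [NumberField F] [IQ F] {p n t : ℕ} {M K' K : Type} [Field M] [NumberField M]
    [Field K'] [NumberField K'] [Field K] [NumberField K] [Algebra M K'] [Algebra K' K] [Algebra M K]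

theorem q_leT (h : H13V.CycT p n t M K' K) (ιK : K →ₐ[ℚ] AlgebraicClosure F) :
    KG F M (emb ιK : M →ₐ[ℚ] AlgebraicClosure F) ≤ KG F K' (emb ιK : K' →ₐ[ℚ] AlgebraicClosure F) ∧
      KG F K' (emb ιK : K' →ₐ[ℚ] AlgebraicClosure F) ≤ KG F K ιK := by
  have ht := h.tow
  constructor
  · apply IntermediateField.adjoin.mono
    rintro _ ⟨x, rfl⟩
    refine ⟨algebraMap M K' x, ?_⟩
    show ιK (algebraMap K' K (algebraMap M K' x)) = ιK (algebraMap M K x)
    rw [← IsScalarTower.algebraMap_apply M K' K]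
  · apply IntermediateField.adjoin.mono
    rintro _ ⟨x, rfl⟩
    exact ⟨algebraMap K' K x, rfl⟩

theorem q_degT (hp : p.Prime) (hp2 : p ≠ 2) (h : H13V.CycT p n t M K' K) (ιK : K →ₐ[ℚ] AlgebraicClosure F) :
    ∃ d : ℕ, (d = 1 ∨ d = 2) ∧ Module.finrank ℚ (KG F K ιK) = d * Module.finrank ℚ K ∧
      Module.finrank ℚ (KG F K' (emb ιK : K' →ₐ[ℚ] AlgebraicClosure F)) = d * Module.finrank ℚ K' ∧
      Module.finrank ℚ (KG F M (emb ιK : M →ₐ[ℚ] AlgebraicClosure F)) = d * Module.finrank ℚ M := by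
  have ht := h.tow
  have hodd := hp.odd_of_ne_two hp2
  obtain ⟨hle1, hle2⟩ := q_leT h ιK
  rcases q3_dich (emb ιK : M →ₐ[ℚ] AlgebraicClosure F) with ⟨f, hf⟩ | h2
  · have hf' : ∀ y : F, (emb ιK : K' →ₐ[ℚ] AlgebraicClosure F) (((algebraMap M K').comp f) y) = algebraMap F (AlgebraicClosure F) y := by
      intro y
      rw [← hf y]
      show ιK (algebraMap K' K (algebraMap M K' (f y))) = ιK (algebraMap M K (f y))
      rw [← IsScalarTower.algebraMap_apply M K' K]
    have hf'' : ∀ y : F, ιK (((algebraMap M K).comp f) y) = algebraMap F (AlgebraicClosure F) y := hf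
    refine ⟨1, Or.inl rfl, ?_, ?_, ?_⟩
    · rw [one_mul]
      exact q3_one ιK _ hf''
    · rw [one_mul]
      exact q3_one _ _ hf'
    · rw [one_mul]
      exact q3_one _ f hf
  · have hpos : 0 < Module.finrank ℚ M := Module.finrank_pos
    have hK' : Module.finrank ℚ K' = Module.finrank ℚ M * p ^ n := by
      rw [← Module.finrank_mul_finrank ℚ M K', h.sub]
    have hK : Module.finrank ℚ K = Module.finrank ℚ M * p ^ (n + t) := by
      rw [← Module.finrank_mul_finrank ℚ M K, h.deg]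
    exact ⟨2, Or.inr rfl, q3_two ιK (hle1.trans hle2) hpos h2 hK hodd.pow, q3_two _ hle1 hpos h2 hK' hodd.pow, h2⟩

theorem q_galT (h : H13V.CycT p n t M K' K) (ιK : K →ₐ[ℚ] AlgebraicClosure F) (s : AlgebraicClosure F ≃ₐ[F] AlgebraicClosure F)
    (hs : s ∈ (KG F M (emb ιK : M →ₐ[ℚ] AlgebraicClosure F)).fixingSubgroup) :
    ∃ σ : K ≃ₐ[M] K, ∀ x : K, s (ιK x) = ιK (σ x) := by
  have hg := h.gal
  rw [q_fix] at hs
  letI : Algebra M (AlgebraicClosure F) := (emb ιK : M →ₐ[ℚ] AlgebraicClosure F).toRingHom.toAlgebra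
  letI : Algebra K (AlgebraicClosure F) := ιK.toRingHom.toAlgebra
  have t : IsScalarTower M K (AlgebraicClosure F) := IsScalarTower.of_algebraMap_eq fun x => rfl
  let χ : AlgebraicClosure F ≃ₐ[M] AlgebraicClosure F := AlgEquiv.ofRingEquiv (f := (s : AlgebraicClosure F ≃+* AlgebraicClosure F)) hs
  refine ⟨χ.restrictNormal K, fun x => ?_⟩
  exact (AlgEquiv.restrictNormal_commutes χ K x).symm

/-- The field FK is stable. -/
theorem q_nrmT (h : H13V.CycT p n t M K' K) (ιK : K →ₐ[ℚ] AlgebraicClosure F) (s : AlgebraicClosure F ≃ₐ[F] AlgebraicClosure F)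
    (hs : s ∈ (KG F M (emb ιK : M →ₐ[ℚ] AlgebraicClosure F)).fixingSubgroup) (x : AlgebraicClosure F) (hx : x ∈ KG F K ιK) :
    s x ∈ KG F K ιK := by
  obtain ⟨σ, hσ⟩ := q_galT h ιK s hs
  refine IntermediateField.adjoin_induction F (p := fun x _ => s x ∈ KG F K ιK) ?_ ?_ ?_ ?_ ?_ hx
  · rintro _ ⟨y, rfl⟩
    rw [hσ]
    exact IntermediateField.subset_adjoin F _ ⟨σ y, rfl⟩
  · intro y
    rw [s.commutes]
    exact (KG F K ιK).algebraMap_mem y
  · intro x y _ _ h1 h2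
    rw [map_add]
    exact add_mem h1 h2
  · intro x _ h1
    rw [map_inv₀]
    exact inv_mem h1
  · intro x y _ _ h1 h2
    rw [map_mul]
    exact mul_mem h1 h2

/-- The degrees over F. -/
theorem q_degFT (hp : p.Prime) (hp2 : p ≠ 2) (h : H13V.CycT p n t M K' K) (ιK : K →ₐ[ℚ] AlgebraicClosure F) :
    Module.finrank F (KG F K ιK) = Module.finrank F (KG F M (emb ιK : M →ₐ[ℚ] AlgebraicClosure F)) * p ^ (n + t) ∧
      Module.finrank F (KG F K ιK) = Module.finrank F (KG F K' (emb ιK : K' →ₐ[ℚ] AlgebraicClosure F)) * p ^ t := by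
  have ht := h.tow
  obtain ⟨d, hd, h1, h2, h3⟩ := q_degT hp hp2 h ιK
  have hK' : Module.finrank ℚ K' = Module.finrank ℚ M * p ^ n := by
    rw [← Module.finrank_mul_finrank ℚ M K', h.sub]
  have hK : Module.finrank ℚ K = Module.finrank ℚ M * p ^ (n + t) := by
    rw [← Module.finrank_mul_finrank ℚ M K, h.deg]
  rw [← Module.finrank_mul_finrank ℚ F] at h1 h2 h3
  have hF : 0 < Module.finrank ℚ F := Module.finrank_pos
  constructor
  · apply Nat.eq_of_mul_eq_mul_left hF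
    rw [h1, ← mul_assoc, h3, hK, mul_assoc]
  · apply Nat.eq_of_mul_eq_mul_left hF
    rw [h1, ← mul_assoc, h2, hK, hK', pow_add, mul_assoc, mul_assoc]

theorem q_gamT (hp : p.Prime) (hp2 : p ≠ 2) (h : H13V.CycT p n t M K' K) (ιK : K →ₐ[ℚ] AlgebraicClosure F) (σ : K ≃ₐ[M] K) :
    ∃ γ ∈ (KG F M (emb ιK : M →ₐ[ℚ] AlgebraicClosure F)).fixingSubgroup, ∀ x : K, γ (ιK x) = ιK (σ x) := by
  have hg := h.gal
  obtain ⟨hle1, hle2⟩ := q_leT h ιK
  have hfin : FiniteDimensional F (KG F K ιK) := H13R.kg_fin F K ιK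
  obtain ⟨hd, -⟩ := q_degFT hp hp2 h ιK
  have hnrm := q_nrmT h ιK
  have hgal := q_galT h ιK
  obtain ⟨M₀, hM₀⟩ : ∃ M₀ : IntermediateField F (AlgebraicClosure F), M₀ = KG F M (emb ιK : M →ₐ[ℚ] AlgebraicClosure F) := ⟨_, rfl⟩
  have hMN := hle1.trans hle2
  rw [← hM₀] at hd hnrm hgal hMN ⊢
  let _ : Algebra M₀ (KG F K ιK) := H55P.s13_alg hMN
  have hG : IsGalois M₀ (KG F K ιK) := H55P.s13_galois M₀ (KG F K ιK) hMN hnrm
  have hfM : FiniteDimensional F M₀ := H55P.s13_fin hMN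
  have t1 : IsScalarTower F M₀ (KG F K ιK) := IsScalarTower.of_algebraMap_eq fun x => rfl
  have t2 : IsScalarTower M₀ (KG F K ιK) (AlgebraicClosure F) := IsScalarTower.of_algebraMap_eq fun x => rfl
  have hfN : FiniteDimensional M₀ (KG F K ιK) := Module.Finite.of_restrictScalars_finite F M₀ (KG F K ιK)
  have hcard : Module.finrank M₀ (KG F K ιK) = p ^ (n + t) := by
    have h1 := Module.finrank_mul_finrank F M₀ (KG F K ιK)
    rw [hd] at h1
    exact Nat.eq_of_mul_eq_mul_left Module.finrank_pos h1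
  have hal : Algebra.IsAlgebraic M₀ (AlgebraicClosure F) := Algebra.IsAlgebraic.tower_top (K := F) M₀
  have hcl : IsAlgClosure M₀ (AlgebraicClosure F) := ⟨inferInstance, hal⟩
  have hno : Normal M₀ (AlgebraicClosure F) := IsAlgClosure.normal M₀ (AlgebraicClosure F)
  have key : ∀ t : (KG F K ιK) ≃ₐ[M₀] (KG F K ιK), ∃ s : AlgebraicClosure F ≃ₐ[F] AlgebraicClosure F,
      (∀ x : KG F K ιK, s (x : AlgebraicClosure F) = ((t x : KG F K ιK) : AlgebraicClosure F)) ∧ s ∈ M₀.fixingSubgroup := by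
    intro t
    refine ⟨(t.liftNormal (AlgebraicClosure F)).restrictScalars F, fun x => ?_, ?_⟩
    · exact t.liftNormal_commutes (AlgebraicClosure F) x
    · rw [IntermediateField.mem_fixingSubgroup_iff]
      intro x hx
      exact (t.liftNormal (AlgebraicClosure F)).commutes ⟨x, hx⟩
  choose lft hl1 hl2 using key
  choose Φ hΦ using fun t => hgal (lft t) (hl2 t)
  have hinj : Function.Injective Φ := by
    intro t t' htt
    have h1 : (lft t')⁻¹ * lft t ∈ (KG F K ιK).fixingSubgroup := by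
      rw [q_fix]
      intro x
      have h2 : lft t (ιK x) = lft t' (ιK x) := by rw [hΦ, hΦ, htt]
      rw [AlgEquiv.mul_apply, h2]
      exact (lft t').symm_apply_apply _
    rw [IntermediateField.mem_fixingSubgroup_iff] at h1
    apply AlgEquiv.ext
    intro x
    apply Subtype.ext
    rw [← hl1, ← hl1]
    have h2 := congrArg (lft t') (h1 _ x.2)
    rw [AlgEquiv.mul_apply] at h2
    have h3 : lft t' ((lft t')⁻¹ (lft t (x : AlgebraicClosure F))) = lft t (x : AlgebraicClosure F) := (lft t').apply_symm_apply _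
    rwa [h3] at h2
  have hfMK : FiniteDimensional M K := Module.Finite.of_restrictScalars_finite ℚ M K
  have hsurj := (hinj.bijective_of_nat_card_le (by
    rw [IsGalois.card_aut_eq_finrank, IsGalois.card_aut_eq_finrank, h.deg, hcard])).2
  obtain ⟨t, ht⟩ := hsurj σ
  exact ⟨lft t, hl2 t, fun x => by rw [hΦ, ht]⟩

/-- K/K' is Galois of degree p^t. -/
theorem q_stepT (hp : 0 < p) (h : H13V.CycT p n t M K' K) : IsGalois K' K ∧ Module.finrank K' K = p ^ t := by
  have ht := h.tow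
  have hg := h.gal
  refine ⟨IsGalois.tower_top_of_isGalois M K' K, ?_⟩
  have h1 := Module.finrank_mul_finrank M K' K
  rw [h.deg, h.sub, pow_add] at h1
  exact Nat.eq_of_mul_eq_mul_left (pow_pos hp n) h1

/-- The powers of a generator which fix K'. -/
theorem q4_midT (hp : 0 < p) (h : H13V.CycT p n t M K' K) (σ : K ≃ₐ[M] K) (hσ : orderOf σ = p ^ (n + t)) (k : ℕ) :
    (∀ y : K', (σ ^ k) (algebraMap K' K y) = algebraMap K' K y) ↔ p ^ n ∣ k := by
  classical
  have ht := h.tow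
  have hg := h.gal
  have hcyc := h.cyc
  obtain ⟨-, hdeg⟩ := q_stepT hp h
  have hfMK : FiniteDimensional M K := Module.Finite.of_restrictScalars_finite ℚ M K
  obtain ⟨E, hE⟩ : ∃ E : IntermediateField M K, E = (IsScalarTower.toAlgHom M K' K).fieldRange := ⟨_, rfl⟩
  have hfr : Module.finrank M E = p ^ n := by
    rw [← h.sub, hE]
    exact (LinearEquiv.finrank_eq (AlgEquiv.ofInjectiveField (IsScalarTower.toAlgHom M K' K)).toLinearEquiv).symm
  have hfr' : Module.finrank E K = p ^ t := by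
    have h1 := Module.finrank_mul_finrank M E K
    rw [h.deg, hfr, pow_add] at h1
    exact Nat.eq_of_mul_eq_mul_left (pow_pos hp n) h1
  have hcard : Nat.card E.fixingSubgroup = p ^ t := by
    rw [IsGalois.card_fixingSubgroup_eq_finrank, hfr']
  have hmem : ∀ τ : K ≃ₐ[M] K, τ ∈ E.fixingSubgroup ↔ ∀ y : K', τ (algebraMap K' K y) = algebraMap K' K y := by
    intro τ
    rw [IntermediateField.mem_fixingSubgroup_iff, hE]
    constructor
    · intro h1 y
      exact h1 _ ⟨y, rfl⟩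
    · rintro h1 _ ⟨y, rfl⟩
      exact h1 y
  rw [← hmem]
  have hpow : ∀ τ ∈ E.fixingSubgroup, τ ^ p ^ t = 1 := by
    intro τ hτ
    have h1 : (⟨τ, hτ⟩ : E.fixingSubgroup) ^ Nat.card E.fixingSubgroup = 1 := pow_card_eq_one'
    rw [hcard] at h1
    exact congrArg Subtype.val h1
  have hset : (E.fixingSubgroup : Set (K ≃ₐ[M] K)) = {τ | τ ^ p ^ t = 1} := by
    apply Set.eq_of_subset_of_ncard_le
    · exact fun τ hτ => hpow τ hτ
    · have h1 : (E.fixingSubgroup : Set (K ≃ₐ[M] K)).ncard = p ^ t := hcard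
      rw [h1]
      have h2 := IsCyclic.card_pow_eq_one_le (α := K ≃ₐ[M] K) (pow_pos hp t)
      have h3 : ({τ : K ≃ₐ[M] K | τ ^ p ^ t = 1} : Set (K ≃ₐ[M] K)).ncard =
          (Finset.univ.filter fun a : K ≃ₐ[M] K => a ^ p ^ t = 1).card := by
        rw [← Set.ncard_coe_finset]
        congr 1
        ext τ
        simp
      rw [h3]
      exact h2
    · exact Set.toFinite _
  have h4 : σ ^ k ∈ E.fixingSubgroup ↔ (σ ^ k) ^ p ^ t = 1 := by
    have h5 : σ ^ k ∈ (E.fixingSubgroup : Set (K ≃ₐ[M] K)) ↔ σ ^ k ∈ {τ : K ≃ₐ[M] K | τ ^ p ^ t = 1} := by rw [hset]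
    exact h5
  rw [h4, ← pow_mul, ← orderOf_dvd_iff_pow_eq_one, hσ, pow_add]
  exact Nat.mul_dvd_mul_iff_right (pow_pos hp t)

/-- The generator. -/
theorem q_cycT (hp : p.Prime) (hp2 : p ≠ 2) (h : H13V.CycT p n t M K' K) (ιK : K →ₐ[ℚ] AlgebraicClosure F) :
    ∃ γ ∈ (KG F M (emb ιK : M →ₐ[ℚ] AlgebraicClosure F)).fixingSubgroup,
      (∀ s ∈ (KG F M (emb ιK : M →ₐ[ℚ] AlgebraicClosure F)).fixingSubgroup, ∀ x ∈ KG F K ιK, s x ∈ KG F K ιK) ∧
      (∀ s ∈ (KG F M (emb ιK : M →ₐ[ℚ] AlgebraicClosure F)).fixingSubgroup, ∃ k : ℕ, ∃ u ∈ (KG F K ιK).fixingSubgroup, s = γ ^ k * u) ∧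
      (∀ k : ℕ, γ ^ k ∈ (KG F K ιK).fixingSubgroup ↔ p ^ (n + t) ∣ k) ∧
      ∀ k : ℕ, γ ^ k ∈ (KG F K' (emb ιK : K' →ₐ[ℚ] AlgebraicClosure F)).fixingSubgroup ↔ p ^ n ∣ k := by
  have ht := h.tow
  have hg := h.gal
  have hcyc := h.cyc
  have hfMK : FiniteDimensional M K := Module.Finite.of_restrictScalars_finite ℚ M K
  obtain ⟨σ, hσ⟩ := IsCyclic.exists_generator (α := K ≃ₐ[M] K)
  have hord : orderOf σ = p ^ (n + t) := by
    rw [orderOf_eq_card_of_forall_mem_zpowers hσ, IsGalois.card_aut_eq_finrank, h.deg]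
  obtain ⟨γ, hγ, hγσ⟩ := q_gamT hp hp2 h ιK σ
  have hpw : ∀ (k : ℕ) (x : K), (γ ^ k) (ιK x) = ιK ((σ ^ k) x) := by
    intro k
    induction k with
    | zero => exact fun x => rfl
    | succ k ih =>
      intro x
      rw [pow_succ', pow_succ', AlgEquiv.mul_apply, AlgEquiv.mul_apply, ih, hγσ]
  refine ⟨γ, hγ, fun s hs x hx => q_nrmT h ιK s hs x hx, fun s hs => ?_, fun k => ?_, fun k => ?_⟩
  · obtain ⟨τ, hτ⟩ := q_galT h ιK s hs
    obtain ⟨k, hk⟩ := mem_powers_iff_mem_zpowers.2 (hσ τ)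
    refine ⟨k, (γ ^ k)⁻¹ * s, ?_, by rw [mul_inv_cancel_left]⟩
    rw [q_fix]
    intro x
    have hk' : σ ^ k = τ := hk
    rw [AlgEquiv.mul_apply, hτ, ← hk', ← hpw]
    exact (γ ^ k).symm_apply_apply _
  · rw [q_fix, ← hord, orderOf_dvd_iff_pow_eq_one]
    constructor
    · intro h1
      apply AlgEquiv.ext
      intro x
      apply ιK.injective
      show ιK ((σ ^ k) x) = ιK x
      rw [← hpw, h1]
    · intro h1 x
      rw [hpw, h1]
      rfl
  · rw [q_fix, ← q4_midT hp.pos h σ hord k]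
    constructor
    · intro h1 y
      apply ιK.injective
      show ιK ((σ ^ k) (algebraMap K' K y)) = ιK (algebraMap K' K y)
      rw [← hpw]
      exact h1 y
    · intro h1 y
      rw [emb_apply, hpw, h1]

end H41V
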