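import Mathlib
import Pool.Agent.Lib.H41V.Q3
import Pool.Agent.Lib.H41V.C
import Pool.Agent.Lib.H13T.Q5

/-! # H41V: the primes in AnR and AnW with their ramification indices (ports of H13T.Q2, Q5 to degree p^t) -/

open NumberField IsDedekindDomain WeierstrassCurve

namespace H41V

open H55P (IQ UnrP)
open H55K H55K.TQ
open H55R (Pl es fs)
open H41S (b4_ram fin_deg)
open H13T (AnR q_es q_es_iff q_gal2 q_p q_pts q_cases)

/-- In a cyclic extension of degree p^t the norm of a ramified prime which does not contain p is 1 modulo p. -/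
theorem tame_cyc (K K' : Type) [Field K] [NumberField K] [Field K'] [NumberField K'] [Algebra K K']
    [IsGalois K K'] (hc : IsCyclic (K' ≃ₐ[K] K')) {p t : ℕ} (hp : p.Prime) (hn : Module.finrank K K' = p ^ t) (v : Pl K)
    (hv : (p : 𝓞 K) ∉ v.asIdeal) (he : es K K' v ≠ 1) : p ∣ Ideal.absNorm v.asIdeal - 1 := by
  have hF : Fact p.Prime := ⟨hp⟩
  obtain ⟨t, rfl⟩ : ∃ t', t = t' + 1 := by
    cases t with
    | zero =>
      exfalso
      have h1 := es_dvd K K' v
      rw [hn, pow_zero] at h1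
      exact he (Nat.dvd_one.1 h1)
    | succ t => exact ⟨t, rfl⟩
  have hfd : FiniteDimensional K K' := Module.finite_of_finrank_pos (by rw [hn]; exact pow_pos hp.pos _)
  have hGal : Nat.card (K' ≃ₐ[K] K') = p ^ (t + 1) := by rw [IsGalois.card_aut_eq_finrank, hn]
  obtain ⟨H, hH⟩ := Sylow.exists_subgroup_card_pow_prime (G := K' ≃ₐ[K] K') p (n := 1)
    (by rw [hGal, pow_one]; exact dvd_pow_self p (Nat.succ_ne_zero _))
  rw [pow_one] at hH
  let K₁ : IntermediateField K K' := IntermediateField.fixedField H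
  have hd1 : Module.finrank K₁ K' = p := by
    rw [← hH]
    exact IntermediateField.finrank_fixedField_eq_card H
  have hnf : NumberField K₁ := NumberField.of_module_finite K K₁
  have hd2 : Module.finrank K K₁ = p ^ t := by
    have h1 := Module.finrank_mul_finrank K K₁ K'
    rw [hn, hd1, pow_succ p t] at h1
    exact Nat.eq_of_mul_eq_mul_right hp.pos h1
  have t1 : IsScalarTower K K₁ K' := IsScalarTower.of_algebraMap_eq fun x => rfl
  have hab : IsMulCommutative (K' ≃ₐ[K] K') := ⟨⟨fun a b => by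
    letI : CommGroup (K' ≃ₐ[K] K') := IsCyclic.commGroup
    exact mul_comm a b⟩⟩
  have hG1 : IsAbelianGalois K K' := { (inferInstance : IsGalois K K') with }
  have hG2 : IsAbelianGalois K K₁ := IsAbelianGalois.tower_bot K K₁ K'
  have g1 : IsGalois K K₁ := inferInstance
  have g3 : IsGalois K₁ K' := inferInstance
  obtain ⟨w, hw⟩ := H55R.under_exists (K := K) (L := K₁) v
  have hw' : w.asIdeal.under (𝓞 K) = v.asIdeal := congrArg HeightOneSpectrum.asIdeal hw
  have he1 : es K₁ K' w = p := b4_ram K K₁ K' hc hp hn hd1 v he w hw'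
  have hpw : (p : 𝓞 K₁) ∉ w.asIdeal := by
    intro h
    apply hv
    rw [← hw', Ideal.under_def, Ideal.mem_comap, map_natCast]
    exact h
  have h1 := H55P.tame_dvd K₁ K' p hp hd1 w hpw (by rw [he1]; exact hp.one_lt.ne')
  obtain ⟨j, hj⟩ := fin_deg hp hd2 v w hw'
  have hm := v.isMaximal
  have hlies : w.asIdeal.LiesOver v.asIdeal := ⟨hw'.symm⟩
  have hN : Ideal.absNorm w.asIdeal = Ideal.absNorm v.asIdeal ^ p ^ j := by
    have h3 := Ideal.absNorm_eq_pow_inertiaDeg'_of_liesOver w.asIdeal v.asIdeal v.isPrime v.ne_bot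
    rw [Ideal.inertiaDeg'_algebraMap, ← Ideal.inertiaDeg_eq_of_isMaximal v.asIdeal w.asIdeal, hj] at h3
    exact h3
  have hpos : ∀ {L : Type} [Field L] [NumberField L] (u : Pl L), 1 ≤ Ideal.absNorm u.asIdeal := fun u =>
    Nat.one_le_iff_ne_zero.2 fun h => u.ne_bot (Ideal.absNorm_eq_zero_iff.1 h)
  rw [hN] at h1
  have e1 : ((Ideal.absNorm v.asIdeal ^ p ^ j : ℕ) : ZMod p) = 1 := by
    have h2 : 1 ≤ Ideal.absNorm v.asIdeal ^ p ^ j := Nat.one_le_pow _ _ (hpos v)
    have h3 := (ZMod.natCast_eq_zero_iff _ _).2 h1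
    rw [Nat.cast_sub h2, Nat.cast_one, sub_eq_zero] at h3
    exact h3
  have e2 : ∀ (k : ℕ) (x : ZMod p), x ^ p ^ k = x := by
    intro k
    induction k with
    | zero => intro x; rw [pow_zero, pow_one]
    | succ k ih => intro x; rw [pow_succ, pow_mul, ih, ZMod.pow_card]
  rw [Nat.cast_pow, e2] at e1
  rw [← ZMod.natCast_eq_zero_iff, Nat.cast_sub (hpos v), e1, Nat.cast_one, sub_self]

/-- The ramification indices in a square of fields. -/
theorem q_squareT {K' K L' L : Type} [Field K'] [NumberField K'] [Field K] [NumberField K] [Field L'] [NumberField L'] [Field L]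
    [NumberField L] [Algebra K' K] [Algebra K' L'] [Algebra K L] [Algebra L' L] [Algebra K' L] [IsScalarTower K' K L]
    [IsScalarTower K' L' L] [IsGalois K' K] [IsGalois L' L] {p t : ℕ} (hp : p.Prime) (hp2 : p ≠ 2) (h1 : Module.finrank K' K = p ^ t)
    (h2 : Module.finrank L' L = p ^ t) (h3 : Module.finrank K L ≤ 2) (w : Pl K') (w' : Pl L') (hw : w.asIdeal = w'.asIdeal.under (𝓞 K'))
    (he : w'.asIdeal.ramificationIdx (𝓞 K') = 1) : es L' L w' = es K' K w := by
  obtain ⟨Q, hQ⟩ := H55R.under_exists (L := L) w'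
  have hQ' : Q.asIdeal.under (𝓞 L') = w'.asIdeal := congrArg HeightOneSpectrum.asIdeal hQ
  let P : Pl K := HeightOneSpectrum.under (𝓞 K) Q
  have hP : Q.asIdeal.under (𝓞 K) = P.asIdeal := rfl
  have hPw : P.asIdeal.under (𝓞 K') = w.asIdeal := by
    rw [← hP, Ideal.under_under, hw, ← hQ', Ideal.under_under]
  have hQp := Q.isPrime
  have hPp := P.isPrime
  have hwp := w'.isPrime
  have l1 : Q.asIdeal.LiesOver P.asIdeal := ⟨hP.symm⟩
  have l2 : Q.asIdeal.LiesOver w'.asIdeal := ⟨hQ'.symm⟩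
  have t1 := Ideal.ramificationIdx_tower (R := 𝓞 K') P.asIdeal Q.asIdeal
  have t2 := Ideal.ramificationIdx_tower (R := 𝓞 K') w'.asIdeal Q.asIdeal
  rw [he, one_mul] at t2
  have e1 := q_es w P.asIdeal P.isPrime hPw
  have e2 := q_es w' Q.asIdeal Q.isPrime hQ'
  rw [← e2, t1, ← e1] at t2
  -- bounds
  obtain ⟨T1, -, hT1⟩ := H55P.pt10_card (K' := K) w
  obtain ⟨T2, -, hT2⟩ := H55P.pt10_card (K' := L) w'
  have d1 : es K' K w ∣ p ^ t := ⟨T1.card * fs K' K w, by rw [← h1, ← hT1]; ring⟩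
  have d2 : es L' L w' ∣ p ^ t := ⟨T2.card * fs L' L w', by rw [← h2, ← hT2]; ring⟩
  have hle : Q.asIdeal.ramificationIdx (𝓞 K) ≤ 2 := by
    have hG : IsGalois K L := q_gal2 h3
    obtain ⟨T3, -, hT3⟩ := H55P.pt10_card (K' := L) P
    rw [← q_es P Q.asIdeal Q.isPrime hP]
    have hpos : 0 < T3.card * fs K L P := by
      rcases Nat.eq_zero_or_pos (T3.card * fs K L P) with h0 | h0
      · have h5 : T3.card * (es K L P * fs K L P) = es K L P * (T3.card * fs K L P) := by ring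
        rw [h5, h0, mul_zero] at hT3
        have := Module.finrank_pos (R := K) (M := L)
        omega
      · exact h0
    calc es K L P ≤ es K L P * (T3.card * fs K L P) := Nat.le_mul_of_pos_right _ hpos
      _ = T3.card * (es K L P * fs K L P) := by ring
      _ ≤ 2 := by rw [hT3]; exact h3
  have d3 : Q.asIdeal.ramificationIdx (𝓞 K) ∣ p ^ t := by
    refine dvd_trans ?_ d2
    rw [← t2]
    exact dvd_mul_left _ _
  have hr1 : Q.asIdeal.ramificationIdx (𝓞 K) = 1 := by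
    obtain ⟨k, -, hk⟩ := (Nat.dvd_prime_pow hp).1 d3
    rcases Nat.eq_zero_or_pos k with h0 | h0
    · rw [hk, h0, pow_zero]
    · exfalso
      have h5 : p ^ 1 ≤ p ^ k := Nat.pow_le_pow_right hp.pos h0
      rw [pow_one, ← hk] at h5
      have h6 := hp.two_le
      omega
  rw [← t2, hr1, mul_one]

/-- The abstract form. -/
theorem q_absT {F K' K L' L : Type} [Field F] [NumberField F] [IQ F] [Field K'] [NumberField K'] [Field K] [NumberField K] [Field L'] [NumberField L'] [Field L]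
    [NumberField L] [Algebra F L'] [Algebra K' K] [Algebra K' L'] [Algebra K L] [Algebra L' L] [Algebra K' L] [IsScalarTower K' K L]
    [IsScalarTower K' L' L] [IsGalois K' K] [IsGalois L' L] (hc : IsCyclic (K ≃ₐ[K'] K)) {p t : ℕ} (hp : p.Prime) (hp2 : p ≠ 2)
    (h1 : Module.finrank K' K = p ^ t) (h2 : Module.finrank L' L = p ^ t) (h3 : Module.finrank K L ≤ 2) (hU : UnrP p K)
    {W : WeierstrassCurve ℤ} {Om : ℂ} {m : Ideal (𝓞 F)} {ψ : Ideal (𝓞 F) →*₀ 𝓞 F} (hH : BaseH F (W⁄(𝓞 F)) Om m ψ)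
    (hQ : Function.Bijective (algebraMap K' L') ∨ QuadG F K' L') (A : Set (Pl L'))
    (hA : ∀ w', w' ∈ A ↔ algebraMap (𝓞 F) (𝓞 L') (W⁄(𝓞 F)).Δ ∉ w'.asIdeal ∧ es L' L w' ≠ 1 ∧
      p ∣ Nat.card ((W⁄(𝓞 F))⁄(𝓞 L' ⧸ w'.asIdeal)).toAffine.Point) :
    (AnR p W K' K).Finite ∧ A.Finite ∧
      (∀ w' ∈ A, HeightOneSpectrum.under (𝓞 K') w' ∈ AnR p W K' K ∧ es L' L w' = es K' K (HeightOneSpectrum.under (𝓞 K') w')) ∧
      ∀ w ∈ AnR p W K' K, {w' ∈ A | HeightOneSpectrum.under (𝓞 K') w' = w}.ncard = Module.finrank K' L' := by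
  classical
  have hfinR : (AnR p W K' K).Finite := by
    refine (H55R.ram_fin K' K).subset fun w hw => ?_
    exact (q_es_iff w).2 hw.2.2
  have hfinA : A.Finite := by
    refine (H55R.ram_fin L' L).subset fun w hw => ((hA w).1 hw).2.1
  -- p divides N w - 1 and N w + 1: contradiction
  have hcon : ∀ w : Pl K', es K' K w ≠ 1 → ¬ p ∣ Ideal.absNorm w.asIdeal + 1 := by
    intro w hw hd
    have h4 := tame_cyc K' K hc hp h1 w (q_p hp hU w hw) hw
    have h5 : Ideal.absNorm w.asIdeal ≠ 0 := fun h => w.ne_bot (Ideal.absNorm_eq_zero_iff.1 h)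
    have h6 : p ∣ 2 := by
      have h7 := (Nat.dvd_sub hd h4)
      have h8 : Ideal.absNorm w.asIdeal + 1 - (Ideal.absNorm w.asIdeal - 1) = 2 := by omega
      rwa [h8] at h7
    exact hp2 ((Nat.prime_dvd_prime_iff_eq hp Nat.prime_two).1 h6)
  -- the discriminant
  have hD : ∀ (w : Pl K') (w' : Pl L'), w.asIdeal = w'.asIdeal.under (𝓞 K') →
      (algebraMap (𝓞 F) (𝓞 L') (W⁄(𝓞 F)).Δ ∉ w'.asIdeal ↔ ((W.Δ : ℤ) : 𝓞 K') ∉ w.asIdeal) := by
    intro w w' hw
    rw [hw, not_iff_not, Ideal.mem_comap, map_intCast]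
    have e1 : (W⁄(𝓞 F)).Δ = ((W.Δ : ℤ) : 𝓞 F) := by
      show (W.map (algebraMap ℤ (𝓞 F))).Δ = _
      rw [WeierstrassCurve.map_Δ]
      exact eq_intCast (algebraMap ℤ (𝓞 F)) W.Δ
    rw [e1, map_intCast]
  refine ⟨hfinR, hfinA, ?_, ?_⟩
  · intro w' hwA
    obtain ⟨hΔ, he, hpt⟩ := (hA w').1 hwA
    obtain ⟨w, hw0⟩ : ∃ w, w = HeightOneSpectrum.under (𝓞 K') w' := ⟨_, rfl⟩
    have hw : w.asIdeal = w'.asIdeal.under (𝓞 K') := by rw [hw0]; rfl
    rw [← hw0]
    have hΔ' := (hD w w' hw).1 hΔ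
    rcases q_cases hQ hH w hΔ' with ⟨-, h4⟩ | ⟨h4, h5⟩
    · obtain ⟨hN, hr⟩ := h4 w' hw
      rw [q_pts W w w' hw hN] at hpt
      have h6 := q_squareT hp hp2 h1 h2 h3 w w' hw hr
      refine ⟨⟨hΔ', hpt, (q_es_iff w).1 ?_⟩, h6⟩
      rw [← h6]
      exact he
    · obtain ⟨hr, hc⟩ := h5 w' hw
      rw [hc] at hpt
      refine absurd (hp.dvd_of_dvd_pow hpt) (hcon w ?_)
      rw [← q_squareT hp hp2 h1 h2 h3 w w' hw hr]
      exact he
  · rintro w ⟨hΔ, hpt, hr⟩
    have he := (q_es_iff w).2 hr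
    rcases q_cases hQ hH w hΔ with ⟨h4, h5⟩ | ⟨h4, h5⟩
    · rw [← h4]
      congr 1
      ext w'
      have hiff : HeightOneSpectrum.under (𝓞 K') w' = w ↔ w.asIdeal = w'.asIdeal.under (𝓞 K') :=
        ⟨fun h => by rw [← h]; rfl, fun h => HeightOneSpectrum.ext h.symm⟩
      constructor
      · rintro ⟨-, h6⟩
        exact hiff.1 h6
      · intro h6
        obtain ⟨hN, hr'⟩ := h5 w' h6
        refine ⟨(hA w').2 ⟨(hD w w' h6).2 hΔ, ?_, ?_⟩, hiff.2 h6⟩
        · rw [q_squareT hp hp2 h1 h2 h3 w w' h6 hr']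
          exact he
        rw [q_pts W w w' h6 hN]
        exact hpt
    · rw [h4] at hpt
      exact absurd hpt (hcon w he)

end H41V
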