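import Mathlib
import Pool.Agent.Lib.H41V.Q5
import Pool.Agent.Lib.H41V.Int
import Pool.Agent.Lib.H13T.Q6

/-! # H41V: the primes in AnR and AnW with their ramification indices, for the fields generated by F -/

open NumberField IsDedekindDomain WeierstrassCurve

namespace H41V

open H55P (IQ UnrP PExt)
open H55K H55K.TQ
open H55R (Pl es fs)
open H13T (AnR AnW emb emb_apply q_es_iff q_bijK)
open H13V (eK)

variable {F : Type} [Field F] [NumberField F] [IQ F] {p n t : ℕ} {M K' K : Type} [Field M] [NumberField M]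
    [Field K'] [NumberField K'] [Field K] [NumberField K] [Algebra M K'] [Algebra K' K] [Algebra M K]

/-- K/K' is cyclic. -/
theorem q_cycl (h : H13V.CycT p n t M K' K) : IsCyclic (K ≃ₐ[K'] K) := by
  have ht := h.tow
  have hg := h.gal
  have hcyc := h.cyc
  exact isCyclic_of_injective (AlgEquiv.restrictScalarsHom M : (K ≃ₐ[K'] K) →* (K ≃ₐ[M] K)) (AlgEquiv.restrictScalarsHom_injective M)

/-- The field FK is Galois over FK'. -/
theorem q_galL (hp : p.Prime) (h : H13V.CycT p n t M K' K) (ιK : K →ₐ[ℚ] AlgebraicClosure F) :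
    letI := H55P.s13_alg (q_leT h ιK).2
    IsGalois (KG F K' (emb ιK : K' →ₐ[ℚ] AlgebraicClosure F)) (KG F K ιK) := by
  letI := H55P.s13_alg (q_leT h ιK).2
  have hLf : FiniteDimensional F (KG F K ιK) := H13R.kg_fin F K ιK
  refine H55P.s13_galois _ _ (q_leT h ιK).2 fun s hs x hx => q_nrmT h ιK s ?_ x hx
  exact IntermediateField.fixingSubgroup_antitone (q_leT h ιK).1 hs

/-- The primes in AnW lie above the primes in AnR, with the same ramification index, d above each prime, d = [FK : K]. -/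
theorem q_setsT (hp : p.Prime) (hp2 : p ≠ 2) (h : H13V.CycT p n t M K' K) (hU : UnrP p K)
    {W : WeierstrassCurve ℤ} {Om : ℂ} {m : Ideal (𝓞 F)} {ψ : Ideal (𝓞 F) →*₀ 𝓞 F} (hH : BaseH F (W⁄(𝓞 F)) Om m ψ)
    (ιK : K →ₐ[ℚ] AlgebraicClosure F) :
    ∃ d : ℕ, (d = 1 ∨ d = 2) ∧ Module.finrank ℚ (KG F K ιK) = d * Module.finrank ℚ K ∧ (AnR p W K' K).Finite ∧
      (AnW p (W⁄(𝓞 F)) (KG F K' (emb ιK : K' →ₐ[ℚ] AlgebraicClosure F)) (KG F K ιK)).Finite ∧
      ∃ f : Pl (KG F K' (emb ιK : K' →ₐ[ℚ] AlgebraicClosure F)) → Pl K',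
        (∀ w' ∈ AnW p (W⁄(𝓞 F)) (KG F K' (emb ιK : K' →ₐ[ℚ] AlgebraicClosure F)) (KG F K ιK),
          f w' ∈ AnR p W K' K ∧ eI (q_leT h ιK).2 w' = eK K (f w')) ∧
        ∀ w ∈ AnR p W K' K,
          {w' ∈ AnW p (W⁄(𝓞 F)) (KG F K' (emb ιK : K' →ₐ[ℚ] AlgebraicClosure F)) (KG F K ιK) | f w' = w}.ncard = d := by
  obtain ⟨d, hd, hdK, hdK', -⟩ := q_degT hp hp2 h ιK
  obtain ⟨hd1F, hd2F⟩ := q_degFT hp hp2 h ιK
  obtain ⟨hG, hdeg⟩ := q_stepT hp.pos h
  have hle := (q_leT h ιK).2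
  letI aK' : Algebra K' (KG F K' (emb ιK : K' →ₐ[ℚ] AlgebraicClosure F)) := (KGmap F K' (emb ιK)).toAlgebra
  letI aK : Algebra K (KG F K ιK) := (KGmap F K ιK).toAlgebra
  letI aL : Algebra (KG F K' (emb ιK : K' →ₐ[ℚ] AlgebraicClosure F)) (KG F K ιK) := H55P.s13_alg hle
  letI aKL : Algebra K' (KG F K ιK) := ((algebraMap K (KG F K ιK)).comp (algebraMap K' K)).toAlgebra
  have t1 : IsScalarTower K' K (KG F K ιK) := IsScalarTower.of_algebraMap_eq fun x => rfl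
  have t2 : IsScalarTower K' (KG F K' (emb ιK : K' →ₐ[ℚ] AlgebraicClosure F)) (KG F K ιK) :=
    IsScalarTower.of_algebraMap_eq fun x => Subtype.ext (by
      show ιK (algebraMap K' K x) = (emb ιK : K' →ₐ[ℚ] AlgebraicClosure F) x
      exact (emb_apply ιK x).symm)
  have hLf : FiniteDimensional F (KG F K ιK) := H13R.kg_fin F K ιK
  have hpos : 0 < Module.finrank F (KG F K' (emb ιK : K' →ₐ[ℚ] AlgebraicClosure F)) := by
    have : FiniteDimensional F (KG F K' (emb ιK : K' →ₐ[ℚ] AlgebraicClosure F)) := H13R.kg_fin F K' _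
    exact Module.finrank_pos
  have t3 : IsScalarTower F (KG F K' (emb ιK : K' →ₐ[ℚ] AlgebraicClosure F)) (KG F K ιK) :=
    IsScalarTower.of_algebraMap_eq fun x => rfl
  have hdL : Module.finrank (KG F K' (emb ιK : K' →ₐ[ℚ] AlgebraicClosure F)) (KG F K ιK) = p ^ t := by
    have h1 := Module.finrank_mul_finrank F (KG F K' (emb ιK : K' →ₐ[ℚ] AlgebraicClosure F)) (KG F K ιK)
    rw [hd2F] at h1
    exact Nat.eq_of_mul_eq_mul_left hpos h1
  have hGL : IsGalois (KG F K' (emb ιK : K' →ₐ[ℚ] AlgebraicClosure F)) (KG F K ιK) := q_galL hp h ιK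
  have hK'pos : 0 < Module.finrank ℚ K' := Module.finrank_pos
  have hKpos : 0 < Module.finrank ℚ K := Module.finrank_pos
  have hd1 : Module.finrank K' (KG F K' (emb ιK : K' →ₐ[ℚ] AlgebraicClosure F)) = d := by
    have h1 := Module.finrank_mul_finrank ℚ K' (KG F K' (emb ιK : K' →ₐ[ℚ] AlgebraicClosure F))
    rw [hdK', mul_comm d] at h1
    exact Nat.eq_of_mul_eq_mul_left hK'pos h1
  have hd2 : Module.finrank K (KG F K ιK) = d := by
    have h1 := Module.finrank_mul_finrank ℚ K (KG F K ιK)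
    rw [hdK, mul_comm d] at h1
    exact Nat.eq_of_mul_eq_mul_left hKpos h1
  have hQ : Function.Bijective (algebraMap K' (KG F K' (emb ιK : K' →ₐ[ℚ] AlgebraicClosure F))) ∨
      QuadG F K' (KG F K' (emb ιK : K' →ₐ[ℚ] AlgebraicClosure F)) := by
    rcases kg_dich F K' (emb ιK : K' →ₐ[ℚ] AlgebraicClosure F) with ⟨f, hf⟩ | hq
    · exact Or.inl (q_bijK K' _ f hf)
    · exact Or.inr hq
  obtain ⟨hfin, hfinA, h1, h2⟩ := q_absT (q_cycl h) hp hp2 hdeg hdL (by omega) hU hH hQ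
    (AnW p (W⁄(𝓞 F)) (KG F K' (emb ιK : K' →ₐ[ℚ] AlgebraicClosure F)) (KG F K ιK)) (fun w => by
      have hr := H41S.ram_es (KG F K' (emb ιK : K' →ₐ[ℚ] AlgebraicClosure F)) (KG F K ιK) hle w hGL
      show (_ ∧ _ ∧ _) ↔ (_ ∧ _ ∧ _)
      constructor
      · rintro ⟨h1, h2, h3⟩
        exact ⟨h1, hr.1 h2, h3⟩
      · rintro ⟨h1, h2, h3⟩
        exact ⟨h1, hr.2 h2, h3⟩)
  exact ⟨d, hd, hdK, hfin, hfinA, fun w' => HeightOneSpectrum.under (𝓞 K') w', fun w' hw' => h1 w' hw', fun w hw => by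
    rw [h2 w hw, hd1]⟩

/-- Products over the fibers. -/
theorem q_fibP {α β A : Type} [CommMonoid A] {S : Set α} {T : Set β} (hS : S.Finite) (hT : T.Finite) {f : α → β} {d : ℕ}
    (h1 : ∀ a ∈ S, f a ∈ T) (h2 : ∀ b ∈ T, {a ∈ S | f a = b}.ncard = d) (g : β → A) :
    ∏ a ∈ hS.toFinset, g (f a) = (∏ b ∈ hT.toFinset, g b) ^ d := by
  classical
  rw [← Finset.prod_fiberwise_of_maps_to (s := hS.toFinset) (t := hT.toFinset) (g := f) (fun a ha => by
    rw [Set.Finite.mem_toFinset] at ha ⊢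
    exact h1 a ha), ← Finset.prod_pow]
  refine Finset.prod_congr rfl fun b hb => ?_
  rw [Set.Finite.mem_toFinset] at hb
  have h3 : ∀ a ∈ hS.toFinset.filter (fun a => f a = b), g (f a) = g b := fun a ha => by
    rw [(Finset.mem_filter.1 ha).2]
  rw [Finset.prod_congr rfl h3, Finset.prod_const]
  congr 1
  rw [← h2 b hb, ← Set.ncard_coe_finset]
  congr 1
  ext a
  simp

/-- The products over AnW and AnR. -/
theorem q_prodT (hp : p.Prime) (hp2 : p ≠ 2) (h : H13V.CycT p n t M K' K) (hU : UnrP p K)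
    {W : WeierstrassCurve ℤ} {Om : ℂ} {m : Ideal (𝓞 F)} {ψ : Ideal (𝓞 F) →*₀ 𝓞 F} (hH : BaseH F (W⁄(𝓞 F)) Om m ψ)
    (ιK : K →ₐ[ℚ] AlgebraicClosure F) :
    ∃ d : ℕ, (d = 1 ∨ d = 2) ∧ Module.finrank ℚ (KG F K ιK) = d * Module.finrank ℚ K ∧
      ∃ (hR : (AnR p W K' K).Finite)
        (hW : (AnW p (W⁄(𝓞 F)) (KG F K' (emb ιK : K' →ₐ[ℚ] AlgebraicClosure F)) (KG F K ιK)).Finite),
        hW.toFinset.card = d * hR.toFinset.card ∧
        (∀ {A : Type} [CommMonoid A] (g : ℕ → A),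
          ∏ w' ∈ hW.toFinset, g (eI (q_leT h ιK).2 w') = (∏ w ∈ hR.toFinset, g (eK K w)) ^ d) ∧
        ∀ {A : Type} [CommMonoid A] (g : ℕ → A),
          ∏ᶠ w' : AnW p (W⁄(𝓞 F)) (KG F K' (emb ιK : K' →ₐ[ℚ] AlgebraicClosure F)) (KG F K ιK), g (eI (q_leT h ιK).2 w'.1) =
            (∏ᶠ w : AnR p W K' K, g (eK K w.1)) ^ d := by
  obtain ⟨d, hd, hdK, hR, hW, f, h1, h2⟩ := q_setsT hp hp2 h hU hH ιK
  have key : ∀ {A : Type} [CommMonoid A] (g : ℕ → A),
      ∏ w' ∈ hW.toFinset, g (eI (q_leT h ιK).2 w') = (∏ w ∈ hR.toFinset, g (eK K w)) ^ d := by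
    intro A _ g
    rw [← q_fibP hW hR (fun a ha => (h1 a ha).1) h2 (fun w => g (eK K w))]
    refine Finset.prod_congr rfl fun w' hw' => ?_
    rw [Set.Finite.mem_toFinset] at hw'
    rw [(h1 w' hw').2]
  refine ⟨d, hd, hdK, hR, hW, ?_, key, ?_⟩
  · have h3 := H13T.q_fib hW hR (fun a ha => (h1 a ha).1) h2
    rwa [Set.ncard_eq_toFinset_card _ hW, Set.ncard_eq_toFinset_card _ hR] at h3
  · intro A _ g
    have e1 : ∏ᶠ w' : AnW p (W⁄(𝓞 F)) (KG F K' (emb ιK : K' →ₐ[ℚ] AlgebraicClosure F)) (KG F K ιK), g (eI (q_leT h ιK).2 w'.1) =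
        ∏ w' ∈ hW.toFinset, g (eI (q_leT h ιK).2 w') := by
      rw [← finprod_mem_eq_finite_toFinset_prod (fun w' => g (eI (q_leT h ιK).2 w')) hW]
      exact finprod_set_coe_eq_finprod_mem (f := fun w' => g (eI (q_leT h ιK).2 w')) _
    have e2 : ∏ᶠ w : AnR p W K' K, g (eK K w.1) = ∏ w ∈ hR.toFinset, g (eK K w) := by
      rw [← finprod_mem_eq_finite_toFinset_prod (fun w => g (eK K w)) hR]
      exact finprod_set_coe_eq_finprod_mem (f := fun w => g (eK K w)) _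
    rw [e1, e2]
    exact key g

/-- The ramification indices are powers of p. -/
theorem q_powT (hp : p.Prime) (h : H13V.CycT p n t M K' K) (w : Pl K') : ∃ i ≤ t, eK K w = p ^ i := by
  obtain ⟨hG, hdeg⟩ := q_stepT hp.pos h
  have h1 := es_dvd K' K w
  rw [hdeg] at h1
  exact (Nat.dvd_prime_pow hp).1 h1

end H41V
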