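import Mathlib
import Pool.Agent.Lib.H41V.Z2
import Pool.Agent.Lib.H41G.Res

/-! # H41V: assembly of theorem (T) from its algebraic half and its analytic half -/

open NumberField IsDedekindDomain WeierstrassCurve

namespace H41V

open H55N
open H55P (IQ UnrP PExt)
open H55K H55K.TQ
open H55R (Pl es fs)
open H13T (AnR AnW emb)
open H13V (eK ShaG HypT AtKT ShaThmT)
open H55G (OkM okm_tw lfun_tw)
open H28I (TW tw_prime)
open H35Z (z5_AnR)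
open SSG (fin_ell)

/-- The algebraic half of the theorem, over K. -/
def AlgK (F : Type) [Field F] [NumberField F] [IQ F] (p : ℕ) (W : WeierstrassCurve ℤ) : Prop :=
  ∀ (M K' K : Type) [Field M] [NumberField M] [Field K'] [NumberField K'] [Field K] [NumberField K] [Algebra M K'] [Algebra K' K]
    [Algebra M K] (ιK : K →ₐ[ℚ] AlgebraicClosure F) (n t : ℕ), HypT F p n t W M K' K ιK →
      (Finite (W⁄K).toAffine.Point ∧ ¬ p ∣ Nat.card (W⁄K).toAffine.Point) ∧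
        Nonempty (ShaG p K (W⁄K) ≃+ ((w : AnR p W K' K) → ZMod (eK K w.1) × ZMod (eK K w.1)))

/-- The number of the elements of the product. -/
theorem z6_card {α : Type} {S : Set α} (hS : S.Finite) (e : α → ℕ) :
    Nat.card ((w : S) → ZMod (e w.1) × ZMod (e w.1)) = (∏ᶠ w : S, e w.1) ^ 2 := by
  classical
  have hf : Fintype S := hS.fintype
  rw [Nat.card_pi, finprod_eq_prod_of_fintype, ← Finset.prod_pow]
  refine Finset.prod_congr rfl fun w _ => ?_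
  rw [Nat.card_prod, Nat.card_zmod, sq]

variable {F : Type} [Field F] [NumberField F] [IQ F]

/-- AnR is finite. -/
theorem z6_fin {p n t : ℕ} (hp : p.Prime) (hp2 : p ≠ 2) {M K' K : Type} [Field M] [NumberField M] [Field K'] [NumberField K'] [Field K]
    [NumberField K] [Algebra M K'] [Algebra K' K] [Algebra M K] (h : H13V.CycT p n t M K' K) (hU : UnrP p K)
    {W : WeierstrassCurve ℤ} {Om : ℂ} {m : Ideal (𝓞 F)} {ψ : Ideal (𝓞 F) →*₀ 𝓞 F} (hH : BaseH F (W⁄(𝓞 F)) Om m ψ)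
    (ιK : K →ₐ[ℚ] AlgebraicClosure F) : (AnR p W K' K).Finite := by
  obtain ⟨d, hd, hdK, hR, -⟩ := q_setsT hp hp2 h hU hH ιK
  exact hR

variable {W W' : WeierstrassCurve ℤ} {Om : ℂ} {m : Ideal (𝓞 F)} {ψ : Ideal (𝓞 F) →*₀ 𝓞 F} {kap : ℤ} {e t u lam : ℚ} {p : ℕ}

open Classical in
/-- THE THEOREM for complex multiplication by the integers of F. -/
theorem shaT_max (hH : BaseH F (W⁄(𝓞 F)) Om m ψ) (hp : PrimeH F (W⁄(𝓞 F)) p) (hA : AlgK F p W) : ShaThmT F p W := by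
  intro M K' K _ _ _ _ _ _ _ _ _ ιK n t h
  have hpp := hp.prime
  have hp2 : p ≠ 2 := by
    have := hp.five
    omega
  obtain ⟨hpts, hsha⟩ := hA M K' K ιK n t h
  obtain ⟨Λ, hΛa, hΛs, hΛ1, hΛv⟩ := z4_anaT hH hp ιK h
  refine ⟨hpts, hsha, exists_perZ (perW_of hH), Λ, hΛa, hΛs, hΛ1, fun L hL V hV => ?_⟩
  obtain ⟨f⟩ := hsha
  rw [shaG_lG, map_mul, map_pow, H55P.val_nat p hpp V hV _ hpts.2, one_pow, mul_one, hΛv L hL V hV, Nat.card_congr f.toEquiv,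
    z6_card (z6_fin hpp hp2 h.cyc h.unr hH ιK) (fun w => eK K w)]

open Classical in
/-- THE THEOREM for isogenous curves. -/
theorem shaT_iso (hX : ∀ (K : Type) [Field K] [NumberField K] (W₁ W₂ : WeierstrassCurve K) [W₁.IsElliptic] [W₂.IsElliptic],
      H28I.Iso6 W₁ W₂ (AlgebraicClosure K) → Nonempty (ShaG p K W₁ ≃+ ShaG p K W₂))
    (h : TW F W W' Om m ψ kap e t u lam) (hp' : PrimeH F (W'⁄(𝓞 F)) p) (hT : ShaThmT F p W) :
    ShaThmT F p W' := by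
  intro M K' K _ _ _ _ _ _ _ _ _ ιK n t hS
  have hp := (tw_prime h).1 hp'
  have h5 := hp.five
  have h2 : p ≠ 2 := by omega
  have hpp : p.Prime := hp.prime
  have hAn := z5_AnR (p := p) h K' K
  have hok : OkM p (W⁄(𝓞 F)) (KG F M (emb ιK : M →ₐ[ℚ] AlgebraicClosure F)) := (okm_tw h _).1 hS.ok
  have hSK' := H13R.i1_same h hp K' (lfun_tw h K')
  have hSK := H13R.i1_same h hp K (lfun_tw h K)
  have hunit : BSDPG p W K' := (H35U.bsdB_iff h.base hp K' (emb ιK : K' →ₐ[ℚ] AlgebraicClosure F)).2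
    ⟨(H13R.i1_sel hpp h5 hSK').1 hS.unit.1.1, (H13R.i1_lunit hSK').1 ((H13R.an_iff hpp hS.unit.1.2.2.2).1 hS.unit.2)⟩
  have hO := hT M K' K ιK n t ⟨hS.pos, hS.le, hS.cyc, hS.unr, hok, hunit, by rw [← hAn]; exact hS.few⟩
  obtain ⟨q1, q2⟩ := H28I.pts_iso hpp h5 (H28I.a0_disc hSK.disc' K) hSK.iso hO.pts.1 hO.pts.2
  have hWK : (W⁄K).IsElliptic := fin_ell hSK.disc K
  have hWK' : (W'⁄K).IsElliptic := fin_ell hSK.disc' K
  obtain ⟨φ⟩ := hX K (W⁄K) (W'⁄K) hSK.iso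
  have hcard : Nat.card (ShaG p K (W'⁄K)) = Nat.card (ShaG p K (W⁄K)) := Nat.card_congr φ.symm.toEquiv
  obtain ⟨f⟩ := hO.sha
  have hsha : Nonempty (ShaG p K (W'⁄K) ≃+ ((w : AnR p W' K' K) → ZMod (eK K w.1) × ZMod (eK K w.1))) := by
    rw [hAn]
    exact ⟨φ.symm.trans f⟩
  obtain ⟨Λ, hΛa, hΛs, hΛ1, hΛv⟩ := hO.bsd
  refine ⟨⟨q1, q2⟩, hsha, hSK.ex', Λ, hΛa, (H28I.a0_ser hSK Λ).2 hΛs, hΛ1, fun L hL V hV => ?_⟩
  obtain ⟨L₀, hL₀⟩ := hSK.ex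
  have e1 := hΛv L₀ hL₀ V hV
  rw [shaG_lG, map_mul, map_pow, H55P.val_nat p hpp V hV _ hO.pts.2, one_pow, mul_one] at e1
  rw [shaG_lG, map_mul, map_pow, H55P.val_nat p hpp V hV _ q2, one_pow, mul_one, hcard, hSK.per L₀ L hL₀ hL V hV]
  exact e1

open Classical in
/-- THE THEOREM, all 13 orders of class number one. -/
theorem shaT_allA (F : Type) [Field F] [NumberField F] [IQ F] (W' : WeierstrassCurve ℤ) (hC : H19A.CM F W') (p : ℕ) (hp : p.Prime)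
    (h5 : 5 ≤ p) (hd : ¬ (p : ℤ) ∣ W'.Δ)
    (hX : ∀ (K : Type) [Field K] [NumberField K] (W₁ W₂ : WeierstrassCurve K) [W₁.IsElliptic] [W₂.IsElliptic],
      H28I.Iso6 W₁ W₂ (AlgebraicClosure K) → Nonempty (ShaG p K W₁ ≃+ ShaG p K W₂))
    (hA : ∀ (W : WeierstrassCurve ℤ) (Om : ℂ) (m : Ideal (𝓞 F)) (ψ : Ideal (𝓞 F) →*₀ 𝓞 F),
      BaseH F (W⁄(𝓞 F)) Om m ψ → PrimeH F (W⁄(𝓞 F)) p → AlgK F p W) : ShaThmT F p W' := by
  have hcub : ∀ w : 𝓞 F, w ^ 2 + w + 1 = 0 → ∀ n : ℤ, n ≠ 0 →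
      ∃ κ : 𝓞 F → 𝓞 F, H55W.PRC (𝓞 F) 3 n (3 * n) (27 * n) κ := fun w hw n hn => H55W.cub_F F IQ.deg w hw n hn
  rcases H55Y.y5_cases hC hcub with ⟨Om, hper⟩ | ⟨W, Om, m, ψ, kap, e, t, u, lam, hΔ, hper, h⟩
  · obtain ⟨hΔ, hmin, -⟩ := hC
    obtain ⟨ψ, hH⟩ := H55W.base_all0 hcub W' Om hΔ hper hmin
    have hP0 := H55W.prime_simple hΔ hper hp h5 hd
    exact shaT_max hH hP0 (hA _ _ _ _ hH hP0)
  · have hP0 := H55W.prime_simple hΔ hper hp h5 fun h' => hd (H55Y.y6_dvd h hp h')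
    exact shaT_iso hX h ((H28I.tw_prime h).2 hP0) (shaT_max h.base hP0 (hA _ _ _ _ h.base hP0))

end H41V
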