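import Mathlib
import Pool.Agent.Lib.H41V.Z3
import Pool.Agent.Lib.H13V.C0
import Pool.Agent.Lib.H13V.RI

/-! # H41V: the data of theorem (T) over the fields generated by F -/

open NumberField IsDedekindDomain WeierstrassCurve

namespace H41V

open H55N
open H55P (IQ UnrP PExt)
open H55K H55K.TQ
open H55R (Pl es fs)
open H13T (AnR AnW emb)
open H13V (eK ShaG HypT AtKT ShaThmT CycJ eN)
open H55G (OkM okm_tw lfun_tw)

variable {F : Type} [Field F] [NumberField F] [IQ F] {p n t : ℕ}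

/-- The ramification index eN is the ramification index eI. -/
theorem z7_eN {N' N : IntermediateField F (AlgebraicClosure F)} [NumberField N'] [NumberField N] (h : N' ≤ N)
    (w : HeightOneSpectrum (𝓞 N')) : eN h w = eI h w := rfl

/-- The tower. -/
theorem z7_cycJ (hp : p.Prime) (hp2 : p ≠ 2) {M K' K : Type} [Field M] [NumberField M] [Field K'] [NumberField K'] [Field K]
    [NumberField K] [Algebra M K'] [Algebra K' K] [Algebra M K] (h : H13V.CycT p n t M K' K) (ht : 1 ≤ t) (hn : t ≤ n)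
    (ιK : K →ₐ[ℚ] AlgebraicClosure F) :
    ∃ γ, CycJ p n t (KG F M (emb ιK : M →ₐ[ℚ] AlgebraicClosure F)) (KG F K' (emb ιK : K' →ₐ[ℚ] AlgebraicClosure F)) (KG F K ιK) γ := by
  obtain ⟨γ, hγ, nrm, gen, ord, mid⟩ := q_cycT (F := F) hp hp2 h ιK
  obtain ⟨hle1, hle2⟩ := q_leT h ιK
  obtain ⟨deg, deg'⟩ := q_degFT hp hp2 h ιK
  exact ⟨γ, ht, hn, H13R.kg_fin F K ιK, hle1, hle2, hγ, nrm, gen, ord, mid, deg, deg'⟩

/-- The data over the fields generated by F. -/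
theorem z7_data {W : WeierstrassCurve ℤ} {Om : ℂ} {m : Ideal (𝓞 F)} {ψ : Ideal (𝓞 F) →*₀ 𝓞 F} (hH : BaseH F (W⁄(𝓞 F)) Om m ψ)
    (hp : PrimeH F (W⁄(𝓞 F)) p) {M K' K : Type} [Field M] [NumberField M] [Field K']
    [NumberField K'] [Field K] [NumberField K] [Algebra M K'] [Algebra K' K] [Algebra M K] (ιK : K →ₐ[ℚ] AlgebraicClosure F)
    (h : H13V.HypT F p n t W M K' K ιK) :
    (∃ γ, CycJ p n t (KG F M (emb ιK : M →ₐ[ℚ] AlgebraicClosure F)) (KG F K' (emb ιK : K' →ₐ[ℚ] AlgebraicClosure F)) (KG F K ιK) γ) ∧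
      UnrP p (KG F K ιK) ∧ OkM p (W⁄(𝓞 F)) (KG F M (emb ιK : M →ₐ[ℚ] AlgebraicClosure F)) ∧
      H55P.SelG p (W⁄(𝓞 F)) (KG F K' (emb ιK : K' →ₐ[ℚ] AlgebraicClosure F)) ∧
      (AnW p (W⁄(𝓞 F)) (KG F K' (emb ιK : K' →ₐ[ℚ] AlgebraicClosure F)) (KG F K ιK)).Finite ∧
      (AnW p (W⁄(𝓞 F)) (KG F K' (emb ιK : K' →ₐ[ℚ] AlgebraicClosure F)) (KG F K ιK)).ncard < p ^ (n + 1 - t) := by
  have hpp := hp.prime
  have hp2 : p ≠ 2 := by
    have := hp.five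
    omega
  obtain ⟨d, hd, hdeg, hfR, hfW, hcard, hprod, -⟩ := q_prodT hpp hp2 h.cyc h.unr hH ιK
  refine ⟨z7_cycJ hpp hp2 h.cyc h.pos h.le ιK, H35Z.unr_up hpp hp2 hp.unr K ιK h.unr, h.ok,
    H13R.selG_of_triv hH hpp hp2 hp.unr K' (emb ιK) h.unit.1.1, hfW, ?_⟩
  rw [Set.ncard_eq_toFinset_card _ hfW, hcard]
  refine lt_of_le_of_lt ?_ h.few
  rw [Set.ncard_eq_toFinset_card _ hfR]
  refine Nat.mul_le_mul_right _ ?_
  omega

end H41V
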