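import Mathlib

/-! # H41V, K1: finite abelian p-groups with the same numbers of elements killed by p^k are isomorphic -/

namespace H41V

/-- The number of elements killed by m in ℤ/n. -/
theorem k1_zmod (n m : ℕ) (hn : n ≠ 0) : Nat.card {x : ZMod n // m • x = 0} = n.gcd m := by
  have : NeZero n := ⟨hn⟩
  have h2 : (nsmulAddMonoidHom m : ZMod n →+ ZMod n).range = AddSubgroup.zmultiples (m : ZMod n) := by
    ext x
    constructor
    · rintro ⟨y, rfl⟩
      refine AddSubgroup.mem_zmultiples_iff.2 ⟨(y.val : ℤ), ?_⟩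
      simp [mul_comm]
    · intro hx
      obtain ⟨k, rfl⟩ := AddSubgroup.mem_zmultiples_iff.1 hx
      exact ⟨(k : ZMod n), by simp [mul_comm]⟩
  have h1 : Nat.card (nsmulAddMonoidHom m : ZMod n →+ ZMod n).range = n / n.gcd m := by
    rw [h2, Nat.card_zmultiples, ZMod.addOrderOf_coe _ hn]
  have h3 : Nat.card (nsmulAddMonoidHom m : ZMod n →+ ZMod n).ker * Nat.card (nsmulAddMonoidHom m : ZMod n →+ ZMod n).range = n := by
    rw [← AddSubgroup.index_ker, AddSubgroup.card_mul_index, Nat.card_zmod]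
  have h4 : n.gcd m ∣ n := Nat.gcd_dvd_left n m
  have h5 : 0 < n.gcd m := Nat.gcd_pos_of_pos_left m (Nat.pos_of_ne_zero hn)
  have h6 : 0 < n / n.gcd m := Nat.div_pos (Nat.le_of_dvd (Nat.pos_of_ne_zero hn) h4) h5
  have h7 : Nat.card (nsmulAddMonoidHom m : ZMod n →+ ZMod n).ker = n.gcd m := by
    rw [h1] at h3
    have h8 : n.gcd m * (n / n.gcd m) = n := Nat.mul_div_cancel' h4
    exact Nat.eq_of_mul_eq_mul_right h6 (h3.trans h8.symm)
  rw [← h7]
  exact Nat.card_congr (Equiv.subtypeEquivRight fun x => by rw [AddMonoidHom.mem_ker]; rfl)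

/-- The elements killed by m in a product. -/
theorem k1_pi {ι : Type*} [Fintype ι] (X : ι → Type*) [∀ i, AddCommGroup (X i)] (m : ℕ) :
    Nat.card {x : (i : ι) → X i // m • x = 0} = ∏ i, Nat.card {x : X i // m • x = 0} := by
  rw [← Nat.card_pi]
  refine Nat.card_congr ?_
  refine Equiv.trans (Equiv.subtypeEquivRight fun x => ?_) (Equiv.subtypePiEquivPi (p := fun i (y : X i) => m • y = 0))
  constructor
  · intro h i
    exact congrFun h i
  · intro h
    funext i
    exact h i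

/-- The number of the elements killed by m is an invariant. -/
theorem k1_congr {A B : Type*} [AddCommGroup A] [AddCommGroup B] (e : A ≃+ B) (m : ℕ) :
    Nat.card {x : A // m • x = 0} = Nat.card {x : B // m • x = 0} :=
  Nat.card_congr (e.toEquiv.subtypeEquiv fun x => by
    show m • x = 0 ↔ m • e x = 0
    rw [← map_nsmul, map_eq_zero_iff e e.injective])

/-- A finite abelian group all whose elements are killed by powers of p is a product of cyclic groups. -/
theorem k1_str {G : Type*} [AddCommGroup G] [Finite G] {p : ℕ} (hp : p.Prime) (hG : ∀ x : G, ∃ k : ℕ, p ^ k • x = 0) :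
    ∃ (ι : Type) (_ : Fintype ι) (k : ι → ℕ), (∀ i, 1 ≤ k i) ∧ Nonempty (G ≃+ ((i : ι) → ZMod (p ^ k i))) := by
  classical
  obtain ⟨ι, hι, n, hn, ⟨e⟩⟩ := AddCommGroup.equiv_directSum_zmod_of_finite' G
  have e1 : G ≃+ ((i : ι) → ZMod (n i)) := e.trans (DirectSum.addEquivProd _)
  have h1 : ∀ i, ∃ k : ℕ, 1 ≤ k ∧ n i = p ^ k := by
    intro i
    obtain ⟨k, hk⟩ := hG (e1.symm (Pi.single i 1))
    rw [← map_nsmul, map_eq_zero_iff e1.symm e1.symm.injective] at hk
    have h2 : ((p ^ k : ℕ) : ZMod (n i)) = 0 := by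
      have h3 := congrFun hk i
      rw [Pi.smul_apply, Pi.single_eq_same, Pi.zero_apply, nsmul_eq_mul, mul_one] at h3
      exact h3
    obtain ⟨j, hj, hj2⟩ := (Nat.dvd_prime_pow hp).1 ((ZMod.natCast_eq_zero_iff _ _).1 h2)
    refine ⟨j, ?_, hj2⟩
    rcases Nat.eq_zero_or_pos j with h0 | h0
    · have h4 := hn i
      rw [hj2, h0, pow_zero] at h4
      exact absurd h4 (lt_irrefl _)
    · exact h0
  choose k hk hk2 using h1
  exact ⟨ι, hι, k, hk, ⟨e1.trans (AddEquiv.piCongrRight fun i => (ZMod.ringEquivCongr (hk2 i)).toAddEquiv)⟩⟩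

theorem k1_count {ι : Type} [Fintype ι] {p : ℕ} (hp : p.Prime) (k : ι → ℕ) (j : ℕ) :
    Nat.card {x : (i : ι) → ZMod (p ^ k i) // p ^ j • x = 0} = p ^ ∑ i, min (k i) j := by
  rw [k1_pi, ← Finset.prod_pow_eq_pow_sum]
  refine Finset.prod_congr rfl fun i _ => ?_
  rw [k1_zmod _ _ (pow_ne_zero _ hp.ne_zero)]
  rcases le_total (k i) j with h | h
  · rw [min_eq_left h, Nat.gcd_eq_left (pow_dvd_pow p h)]
  · rw [min_eq_right h, Nat.gcd_eq_right (pow_dvd_pow p h)]

theorem k1_sum {ι : Type} [Fintype ι] (k : ι → ℕ) (j : ℕ) :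
    ∑ i, min (k i) (j + 1) = ∑ i, min (k i) j + Fintype.card {i : ι // j < k i} := by
  classical
  have h1 : Fintype.card {i : ι // j < k i} = ∑ i, (if j < k i then 1 else 0) := by
    rw [Fintype.card_subtype, Finset.card_filter]
  rw [h1, ← Finset.sum_add_distrib]
  refine Finset.sum_congr rfl fun i _ => ?_
  split_ifs with h
  · rw [min_eq_right (by omega), min_eq_right (by omega)]
  · rw [min_eq_left (by omega), min_eq_left (by omega), add_zero]

theorem k1_fib {ι : Type} [Fintype ι] (k : ι → ℕ) (j : ℕ) :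
    Fintype.card {i : ι // j < k i} = Fintype.card {i : ι // j + 1 < k i} + Fintype.card {i : ι // k i = j + 1} := by
  classical
  rw [Fintype.card_subtype, Fintype.card_subtype, Fintype.card_subtype, ← Finset.card_union_of_disjoint]
  · congr 1
    ext i
    simp only [Finset.mem_filter, Finset.mem_univ, true_and, Finset.mem_union]
    omega
  · rw [Finset.disjoint_filter]
    intro i _ h1 h2
    omega

/-- TWO FINITE ABELIAN p-GROUPS WITH THE SAME NUMBERS OF ELEMENTS KILLED BY THE POWERS OF p ARE ISOMORPHIC. -/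
theorem cnt_iso {A B : Type*} [AddCommGroup A] [AddCommGroup B] [Finite A] [Finite B] {p : ℕ} (hp : p.Prime)
    (hA : ∀ x : A, ∃ k : ℕ, p ^ k • x = 0) (hB : ∀ x : B, ∃ k : ℕ, p ^ k • x = 0)
    (h : ∀ j : ℕ, Nat.card {x : A // p ^ j • x = 0} = Nat.card {x : B // p ^ j • x = 0}) : Nonempty (A ≃+ B) := by
  classical
  obtain ⟨ι, hι, k, hk, ⟨e⟩⟩ := k1_str hp hA
  obtain ⟨κ, hκ, l, hl, ⟨f⟩⟩ := k1_str hp hB
  have h1 : ∀ j, ∑ i, min (k i) j = ∑ i, min (l i) j := by
    intro j
    have h2 := h j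
    rw [k1_congr e, k1_congr f, k1_count hp, k1_count hp] at h2
    exact Nat.pow_right_injective hp.two_le h2
  have h2 : ∀ j, Fintype.card {i : ι // j < k i} = Fintype.card {i : κ // j < l i} := by
    intro j
    have h3 := h1 (j + 1)
    rw [k1_sum, k1_sum, h1 j] at h3
    exact Nat.add_left_cancel h3
  have h3 : ∀ j, Fintype.card {i : ι // k i = j} = Fintype.card {i : κ // l i = j} := by
    intro j
    rcases j with _ | j
    · rw [Fintype.card_eq_zero_iff.2, Fintype.card_eq_zero_iff.2]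
      · exact ⟨fun x => by have := hl x.1; have := x.2; omega⟩
      · exact ⟨fun x => by have := hk x.1; have := x.2; omega⟩
    · have h4 := h2 j
      rw [k1_fib k, k1_fib l, h2 (j + 1)] at h4
      exact Nat.add_left_cancel h4
  let σ : ι ≃ κ := Equiv.ofFiberEquiv (f := k) (g := l) fun j => Fintype.equivOfCardEq (h3 j)
  have hσ : ∀ i, l (σ i) = k i := fun i => Equiv.ofFiberEquiv_map _ i
  have e2 : ((i : ι) → ZMod (p ^ k i)) ≃+ ((i : ι) → ZMod (p ^ l (σ i))) :=
    AddEquiv.piCongrRight fun i => (ZMod.ringEquivCongr (by rw [hσ i])).toAddEquiv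
  have e3 : ((i : ι) → ZMod (p ^ l (σ i))) ≃+ ((i : κ) → ZMod (p ^ l i)) :=
    (LinearEquiv.piCongrLeft ℤ (fun i => ZMod (p ^ l i)) σ).toAddEquiv
  exact ⟨((e.trans e2).trans e3).trans f.symm⟩

end H41V
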