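import Mathlib
import Pool.Agent.Lib.H13V.D
import Pool.Agent.Lib.H13T.C11
import Pool.Agent.Lib.H41V.K1

/-! # H41V, K2: the points killed by p^i -/

open NumberField IsDedekindDomain WeierstrassCurve

namespace H41V

open H55P (IQ Pt Nm)
open H55K H55K.TQ H55K.S
open H13T (exists_dta)
open H13V (tk mem_tk)

open scoped Classical

variable {F : Type} [Field F] [NumberField F] [IQ F] {W₀ : WeierstrassCurve (𝓞 F)} {Om : ℂ}
  {m : Ideal (𝓞 F)} {ψ : Ideal (𝓞 F) →*₀ 𝓞 F} {p : ℕ}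

/-- The number of the points killed by p^i. -/
theorem card_tk (hH : BaseH F W₀ Om m ψ) (hp : PrimeH F W₀ p) (i : ℕ) :
    Nat.card (tk (Pt (W₀⁄F) (AlgebraicClosure F)) p i) = p ^ (2 * i) := by
  obtain ⟨A, B, j, act, hA, hB, hD⟩ := exists_dta hH hp
  obtain ⟨r, s, t, Θ, -, -, -⟩ := H13R.r6_iso (Ω := AlgebraicClosure F) W₀ hH.data.ell hA hB
  have hp0 : ((p ^ i : ℕ) : 𝓞 F) ≠ 0 := by exact_mod_cast pow_ne_zero i hp.prime.ne_zero
  have h1 := tor_card hD.cma hp0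
  rw [Nm_nat] at h1
  have h2 : ∀ T : Pt (H35P.WAB A B) (AlgebraicClosure F), act ((p ^ i : ℕ) : 𝓞 F) T = p ^ i • T := by
    intro T
    rw [map_natCast]
    exact AddMonoid.End.natCast_apply (p ^ i) T
  rw [mul_comm 2 i, pow_mul, ← h1]
  refine (Nat.card_congr (Equiv.subtypeEquiv Θ.toEquiv fun T => ?_)).symm
  show T ∈ Tor act ((p ^ i : ℕ) : 𝓞 F) ↔ Θ T ∈ tk (Pt (W₀⁄F) (AlgebraicClosure F)) p i
  rw [mem_tk, ← map_nsmul, map_eq_zero_iff Θ Θ.injective, ← h2]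
  exact Iff.rfl

theorem k2_mono {M : Type} [AddCommGroup M] {p k l : ℕ} (h : k ≤ l) {T : M} (hT : p ^ k • T = 0) : p ^ l • T = 0 := by
  rw [← Nat.sub_add_cancel h, pow_add, mul_smul, hT, smul_zero]

/-- The elements of tk M p i killed by p^j. -/
theorem tk_count {M : Type} [AddCommGroup M] (p i j : ℕ) :
    Nat.card {x : tk M p i // p ^ j • x = 0} = Nat.card (tk M p (min i j)) := by
  refine Nat.card_congr ⟨fun x => ⟨x.1.1, ?_⟩, fun x => ⟨⟨x.1, ?_⟩, ?_⟩, fun x => rfl, fun x => rfl⟩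
  · have h1 : p ^ j • (x.1.1 : M) = 0 := congrArg Subtype.val x.2
    rcases le_total i j with h | h
    · rw [min_eq_left h]
      exact x.1.2
    · rw [min_eq_right h]
      exact h1
  · exact k2_mono (min_le_left i j) x.2
  · apply Subtype.ext
    exact k2_mono (T := (x.1 : M)) (min_le_right i j) x.2

/-- The points killed by p^i form a group isomorphic to (ℤ/p^i)². -/
theorem tk_iso (hH : BaseH F W₀ Om m ψ) (hp : PrimeH F W₀ p) (i : ℕ) :
    Nonempty (tk (Pt (W₀⁄F) (AlgebraicClosure F)) p i ≃+ ZMod (p ^ i) × ZMod (p ^ i)) := by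
  have hpp := hp.prime
  have hne : NeZero (p ^ i) := ⟨pow_ne_zero i hpp.ne_zero⟩
  have hfin : Finite (tk (Pt (W₀⁄F) (AlgebraicClosure F)) p i) := by
    refine (Nat.card_pos_iff.1 ?_).2
    rw [card_tk hH hp]
    exact pow_pos hpp.pos _
  refine cnt_iso hpp (fun x => ⟨i, Subtype.ext x.2⟩) (fun x => ⟨i, ?_⟩) fun j => ?_
  · apply Prod.ext
    · show p ^ i • x.1 = 0
      rw [nsmul_eq_mul, ZMod.natCast_self, zero_mul]
    · show p ^ i • x.2 = 0
      rw [nsmul_eq_mul, ZMod.natCast_self, zero_mul]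
  · rw [tk_count, card_tk hH hp]
    have e1 : Nat.card {x : ZMod (p ^ i) × ZMod (p ^ i) // p ^ j • x = 0} =
        Nat.card ({x : ZMod (p ^ i) // p ^ j • x = 0} × {x : ZMod (p ^ i) // p ^ j • x = 0}) := by
      refine Nat.card_congr ⟨fun x => (⟨x.1.1, congrArg Prod.fst x.2⟩, ⟨x.1.2, congrArg Prod.snd x.2⟩),
        fun x => ⟨(x.1.1, x.2.1), Prod.ext x.1.2 x.2.2⟩, fun x => rfl, fun x => rfl⟩
    have e2 : (p ^ i).gcd (p ^ j) = p ^ min i j := by
      rcases le_total i j with h | h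
      · rw [min_eq_left h, Nat.gcd_eq_left (pow_dvd_pow p h)]
      · rw [min_eq_right h, Nat.gcd_eq_right (pow_dvd_pow p h)]
    rw [e1, Nat.card_prod, k1_zmod _ _ (pow_ne_zero i hpp.ne_zero), e2, ← pow_add]
    congr 1
    omega

end H41V
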