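import Mathlib
import Pool.Agent.Lib.H41V.Z4
import Pool.Agent.Lib.H35KK.X4
import Pool.Agent.Lib.H35KK.X5
import Pool.Agent.Lib.H13V.CE

/-! # H41V: THEOREM (T) -/

open NumberField IsDedekindDomain WeierstrassCurve

namespace H41V

open H55N
open H55P (IQ UnrP PExt)
open H55K H55K.TQ
open H55R (Pl es fs)
open H13T (AnR AnW emb)
open H13V (eK ShaG HypT AtKT ShaThmT CycJ eN exN exN_pow)
open H55G (OkM okm_tw lfun_tw)

/-- The algebraic half of the theorem for complex multiplication by the integers of F. -/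
theorem z8_algK {F : Type} [Field F] [NumberField F] [IQ F] {W : WeierstrassCurve ℤ} {Om : ℂ} {m : Ideal (𝓞 F)}
    {ψ : Ideal (𝓞 F) →*₀ 𝓞 F} {p : ℕ} (hH : BaseH F (W⁄(𝓞 F)) Om m ψ) (hp : PrimeH F (W⁄(𝓞 F)) p) : AlgK F p W := by
  intro M K' K _ _ _ _ _ _ _ _ _ ιK n t h
  obtain ⟨⟨γ, c⟩, hU, hB, hS, hfin, few⟩ := z7_data hH hp ιK h
  obtain ⟨h1, h2, h3⟩ := H13V.shaT_F hH hp c hU hB hS few
  exact ⟨SSG.pts_KG W hp.prime K ιK h2 h3, H35KK.kk_main hH hp h.cyc h.unr ιK (exN c) (fun w => (exN_pow c hp.prime w).1) h1⟩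

open Classical in
/-- THEOREM (T), all 13 orders of class number one. -/
theorem shaT_all (F : Type) [Field F] [NumberField F] [IQ F] (W' : WeierstrassCurve ℤ) (hC : H19A.CM F W') (p : ℕ) (hp : p.Prime)
    (h5 : 5 ≤ p) (hd : ¬ (p : ℤ) ∣ W'.Δ) : ShaThmT F p W' :=
  shaT_allA F W' hC p hp h5 hd (fun K _ _ W₁ W₂ _ _ h => H35KK.x4 h hp h5) fun W Om m ψ hH hp0 => z8_algK hH hp0

end H41V
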